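import Pool.Agent.Helper62.VR.Defs

namespace Pool.Agent.Helper62.VR

variable {V : Type*} [AddCommGroup V] [Module ℂ V]

theorem mem_wt (A : VOA V) (n : ℤ) (v : V) :
    v ∈ A.wt n ↔ A.mode 1 A.omega v = (n : ℂ) • v := by
  unfold VOA.wt
  exact Module.End.mem_eigenspace_iff

/-- modes are homogeneous -/
theorem mode_mem_wt (A : VOA V) {m k : ℤ} {u v : V} (hu : u ∈ A.wt m) (hv : v ∈ A.wt k)
    (n : ℤ) : A.mode n u v ∈ A.wt (m + k - n - 1) := by
  rw [mem_wt] at hu hv ⊢
  obtain ⟨N₀, hN⟩ := A.borcherds 1 n 0 A.omega u v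
  have h := hN (max N₀ 2) (le_max_left _ _)
  have hc1 : ∀ i : ℕ, 2 ≤ i → Ring.choose (1 : ℤ) i = 0 := by
    intro i hi
    have := Ring.choose_natCast (R := ℤ) 1 i
    rw [Nat.cast_one] at this
    rw [this, Nat.choose_eq_zero_of_lt (by omega)]
    simp
  have hc0 : ∀ i : ℕ, 1 ≤ i → Ring.choose (0 : ℤ) i = 0 := by
    intro i hi
    have := Ring.choose_natCast (R := ℤ) 0 i
    rw [Nat.cast_zero] at this
    rw [this, Nat.choose_eq_zero_of_lt (by omega)]
    simp
  have hL : ∑ i ∈ Finset.range (max N₀ 2),
      ((Ring.choose (1 : ℤ) i : ℤ) : ℂ) • A.mode (1 + n - i) (A.mode (0 + i) A.omega u) v =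
      A.mode (n + 1) (A.mode 0 A.omega u) v + A.mode n (A.mode 1 A.omega u) v := by
    rw [← Finset.sum_subset (s₁ := Finset.range 2)]
    · rw [Finset.sum_range_succ, Finset.sum_range_one]
      simp
      ring_nf
    · intro x hx
      rw [Finset.mem_range] at hx ⊢
      exact lt_of_lt_of_le hx (le_max_right _ _)
    · intro x _ hx
      rw [Finset.mem_range, not_lt] at hx
      rw [hc1 x hx]; simp
  have hR : ∑ i ∈ Finset.range (max N₀ 2), ((-1 : ℂ) ^ i * ((Ring.choose (0 : ℤ) i : ℤ) : ℂ)) •
        (A.mode (1 + 0 - i) A.omega (A.mode (n + i) u v) -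
          (-1 : ℂ) ^ (0 : ℤ) • A.mode (n + 0 - i) u (A.mode (1 + i) A.omega v)) =
      A.mode 1 A.omega (A.mode n u v) - A.mode n u (A.mode 1 A.omega v) := by
    rw [Finset.sum_eq_single 0]
    · simp
    · intro i _ hi
      rw [hc0 i (by omega)]; simp
    · intro h0
      exact absurd (Finset.mem_range.2 (by omega)) h0
  rw [hL, hR, A.translation, hu, hv] at h
  have h2 : A.mode 1 A.omega (A.mode n u v) =
      -((n + 1 : ℤ) : ℂ) • A.mode (n + 1 - 1) u v + A.mode n ((m : ℂ) • u) v
        + A.mode n u ((k : ℂ) • v) := by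
    rw [h]; abel
  rw [h2, map_smul, map_smul, LinearMap.smul_apply, add_sub_cancel_right, ← add_smul, ← add_smul]
  congr 1
  push_cast
  ring

/-- In a simple vertex operator algebra `Y(u,z)v ≠ 0` for nonzero `u, v`. -/
theorem exists_mode_ne_zero (A : VOA V) (hA : A.IsSimple) {u v : V} (hu : u ≠ 0) (hv : v ≠ 0) :
    ∃ n : ℤ, A.mode n u v ≠ 0 := by
  by_contra hcon
  push Not at hcon
  -- the annihilated vectors form an ideal
  let S : Submodule ℂ V :=
    { carrier := {x | ∀ n : ℤ, A.mode n u x = 0}
      add_mem' := by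
        intro a b ha hb n
        rw [map_add, ha n, hb n, add_zero]
      zero_mem' := by intro n; simp
      smul_mem' := by
        intro c x hx n
        rw [map_smul, hx n, smul_zero] }
  have hS : ∀ (m : ℤ) (a x : V), x ∈ S → A.mode m a x ∈ S := by
    intro m a x hx
    obtain ⟨N, hN⟩ := A.truncation u a
    obtain ⟨M, hM⟩ := A.truncation a x
    set R : ℕ := N.toNat with hRdef
    have hRN : N ≤ (R : ℤ) := Int.self_le_toNat N
    -- downward induction
    have key : ∀ j : ℕ, ∀ q : ℤ, M - j ≤ q → A.mode q a x ∈ S := by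
      intro j
      induction j with
      | zero =>
        intro q hq
        rw [hM q (by simpa using hq)]
        exact S.zero_mem
      | succ j ih =>
        intro q hq
        by_cases hq2 : M - j ≤ q
        · exact ih q hq2
        intro n
        obtain ⟨N₀, hN₀⟩ := A.borcherds (n - R) q R u a x
        have h := hN₀ (max N₀ 1) (le_max_left _ _)
        have hL : ∑ i ∈ Finset.range (max N₀ 1),
            ((Ring.choose (n - R : ℤ) i : ℤ) : ℂ) •
              A.mode (n - R + q - i) (A.mode (R + i) u a) x = 0 := by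
          apply Finset.sum_eq_zero
          intro i _
          rw [hN (R + i) (by omega)]
          simp
        have hR : ∑ i ∈ Finset.range (max N₀ 1),
            ((-1 : ℂ) ^ i * ((Ring.choose (R : ℤ) i : ℤ) : ℂ)) •
              (A.mode (n - R + R - i) u (A.mode (q + i) a x) -
                (-1 : ℂ) ^ (R : ℤ) • A.mode (q + R - i) a (A.mode (n - R + i) u x)) =
              A.mode n u (A.mode q a x) := by
          rw [Finset.sum_eq_single 0]
          · have hx0 := hx (n - R + (0 : ℕ))
            rw [hx0]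
            simp
          · intro i _ hi
            have h1 : A.mode (q + i) a x ∈ S := ih (q + i) (by omega)
            rw [h1 (n - R + R - i), hx (n - R + i)]
            simp
          · intro h0
            exact absurd (Finset.mem_range.2 (by omega)) h0
        rw [hL, hR] at h
        exact h.symm
    exact key (M - m).toNat m (by omega)
  rcases hA.2 S hS with h | h
  · have : v ∈ S := hcon
    rw [h, Submodule.mem_bot] at this
    exact hv this
  · have h1 : A.vac ∈ S := by rw [h]; trivial
    have h2 := h1 (-1)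
    rw [A.creation] at h2
    exact hu h2

end Pool.Agent.Helper62.VR
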