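import Pool.Agent.Helper62.VR.Criterion

open scoped ComplexConjugate

namespace Pool.Agent.Helper62.VR

variable {V : Type*} [AddCommGroup V] [Module ℂ V]

theorem wt_indep (A : VOA V) : iSupIndep (fun n : ℤ => A.wt n) := by
  have h := (Module.End.eigenspaces_iSupIndep (A.mode 1 A.omega)).comp
    (f := fun n : ℤ => (n : ℂ)) Int.cast_injective
  exact h

theorem wt_top (A : VOA V) : ⨆ n : ℤ, A.wt n = ⊤ := A.graded

/-- a `C₂`-cofinite vertex operator algebra with non-negative grading is generated by finitely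
many homogeneous subspaces -/
theorem c2_generation (A : VOA V) (hpos : A.NonnegGraded) (hC : A.C₂Cofinite) :
    ∃ N : ℕ, ∀ S : Submodule ℂ V, (∀ n : ℤ, n ≤ N → A.wt n ≤ S) →
      (∀ (n : ℤ) (u v : V), u ∈ S → v ∈ S → A.mode n u v ∈ S) → S = ⊤ := by
  classical
  -- truncations
  have htr : ∀ v : V, ∃ N : ℕ, v ∈ ⨆ n : Set.Iic (N : ℤ), A.wt n := by
    have hmono : ∀ N M : ℕ, N ≤ M →
        (⨆ n : Set.Iic (N : ℤ), A.wt n) ≤ ⨆ n : Set.Iic (M : ℤ), A.wt n := by
      intro N M hNM
      apply iSup_le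
      rintro ⟨n, hn⟩
      have hn' : n ≤ (N : ℤ) := hn
      exact le_iSup (fun n : Set.Iic (M : ℤ) => A.wt n) ⟨n, by
        show n ≤ (M : ℤ)
        omega⟩
    intro v
    have hv : v ∈ ⨆ n : ℤ, A.wt n := by rw [wt_top]; trivial
    refine Submodule.iSup_induction (fun n : ℤ => A.wt n)
      (motive := fun v => ∃ N : ℕ, v ∈ ⨆ n : Set.Iic (N : ℤ), A.wt n) hv ?_ ?_ ?_
    · intro n x hx
      refine ⟨n.toNat, ?_⟩
      have hle : A.wt n ≤ ⨆ k : Set.Iic ((n.toNat : ℕ) : ℤ), A.wt k :=
        le_iSup (fun k : Set.Iic ((n.toNat : ℕ) : ℤ) => A.wt k) ⟨n, Int.self_le_toNat n⟩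
      exact hle hx
    · exact ⟨0, Submodule.zero_mem _⟩
    · rintro x y ⟨N, hN⟩ ⟨M, hM⟩
      refine ⟨max N M, Submodule.add_mem _ ?_ ?_⟩
      · exact hmono N _ (le_max_left _ _) hN
      · exact hmono M _ (le_max_right _ _) hM
  -- a finite-dimensional complement of C₂
  obtain ⟨F, hF⟩ := Submodule.exists_isCompl A.C₂
  have : FiniteDimensional ℂ (V ⧸ A.C₂) := hC
  have hFfin : FiniteDimensional ℂ F :=
    LinearEquiv.finiteDimensional (Submodule.quotientEquivOfIsCompl A.C₂ F hF)
  obtain ⟨T, hT⟩ : F.FG := (Submodule.fg_iff_finiteDimensional F).2 hFfin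
  choose bd hbd using htr
  set N : ℕ := T.sup bd with hN
  refine ⟨N, fun S hS hmode => ?_⟩
  have hFN : F ≤ ⨆ n : Set.Iic (N : ℤ), A.wt n := by
    rw [← hT, Submodule.span_le]
    intro x hx
    have h1 : bd x ≤ N := Finset.le_sup (f := bd) hx
    have h2 : (⨆ n : Set.Iic (bd x : ℤ), A.wt n) ≤ ⨆ n : Set.Iic (N : ℤ), A.wt n := by
      apply iSup_le
      rintro ⟨n, hn⟩
      have hn' : n ≤ (bd x : ℤ) := hn
      exact le_iSup (fun n : Set.Iic (N : ℤ) => A.wt n) ⟨n, by
        show n ≤ (N : ℤ)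
        omega⟩
    exact h2 (hbd x)
  have hall : ∀ n : ℕ, A.wt (n : ℤ) ≤ S := by
    intro n
    induction n using Nat.strong_induction_on with
    | _ n ih =>
      by_cases hnN : (n : ℤ) ≤ N
      · exact hS n hnN
      have hbelow : ∀ k : ℤ, k < n → A.wt k ≤ S := by
        intro k hk
        by_cases hk0 : k < 0
        · rw [hpos k hk0]; exact bot_le
        · obtain ⟨j, rfl⟩ := Int.eq_ofNat_of_zero_le (not_lt.1 hk0)
          exact ih j (by exact_mod_cast hk)
      set R : Submodule ℂ V := ⨆ k : ℤ, ⨆ _ : k ≠ (n : ℤ), A.wt k with hR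
      have hRle : ∀ k : ℤ, k ≠ (n : ℤ) → A.wt k ≤ R := fun k hk =>
        le_iSup₂ (f := fun (k : ℤ) (_ : k ≠ (n : ℤ)) => A.wt k) k hk
      set X : Submodule ℂ V := (A.wt n ⊓ S) ⊔ R with hX
      have hhom : ∀ a b : ℤ, ∀ u ∈ A.wt a, ∀ v ∈ A.wt b, A.mode (-2) u v ∈ X := by
        intro a b u hu v hv
        have h1 := mode_mem_wt A hu hv (-2)
        have h2 : a + b - (-2) - 1 = a + b + 1 := by ring
        rw [h2] at h1
        by_cases hab : a + b + 1 = (n : ℤ)
        · by_cases ha : a < 0
          · rw [hpos a ha, Submodule.mem_bot] at hu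
            rw [hu]; simp
          by_cases hb : b < 0
          · rw [hpos b hb, Submodule.mem_bot] at hv
            rw [hv]; simp
          have hu' : u ∈ S := hbelow a (by omega) hu
          have hv' : v ∈ S := hbelow b (by omega) hv
          rw [hab] at h1
          exact le_sup_left (a := A.wt n ⊓ S) ⟨h1, hmode _ _ _ hu' hv'⟩
        · exact le_sup_right (a := A.wt n ⊓ S) (hRle _ hab h1)
      have hC2X : A.C₂ ≤ X := by
        unfold VOA.C₂
        rw [Submodule.span_le]
        rintro _ ⟨u, v, rfl⟩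
        have hu : u ∈ ⨆ n : ℤ, A.wt n := by rw [wt_top]; trivial
        refine Submodule.iSup_induction (fun n : ℤ => A.wt n)
          (motive := fun u => A.mode (-2) u v ∈ X) hu ?_ ?_ ?_
        · intro a u hu
          have hv : v ∈ ⨆ n : ℤ, A.wt n := by rw [wt_top]; trivial
          refine Submodule.iSup_induction (fun n : ℤ => A.wt n)
            (motive := fun v => A.mode (-2) u v ∈ X) hv ?_ ?_ ?_
          · intro b v hv
            exact hhom a b u hu v hv
          · simp
          · intro x y hx hy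
            rw [map_add]
            exact X.add_mem hx hy
        · simp
        · intro x y hx hy
          rw [map_add, LinearMap.add_apply]
          exact X.add_mem hx hy
      have hFX : F ≤ X := by
        refine le_trans hFN (le_trans ?_ le_sup_right)
        apply iSup_le
        rintro ⟨k, hk⟩
        have hk' : k ≤ (N : ℤ) := hk
        exact hRle k (by omega)
      have hXtop : X = ⊤ := by
        rw [eq_top_iff, ← hF.sup_eq_top]
        exact sup_le hC2X hFX
      intro v hv
      have hvX : v ∈ X := by rw [hXtop]; trivial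
      obtain ⟨x, hx, y, hy, hxy⟩ := Submodule.mem_sup.1 hvX
      have hdis : Disjoint (A.wt (n : ℤ)) R := wt_indep A (n : ℤ)
      have hy2 : y ∈ A.wt (n : ℤ) := by
        have : y = v - x := by rw [← hxy]; abel
        rw [this]
        exact Submodule.sub_mem _ hv hx.1
      have hy0 : y = 0 := by
        have := hdis.le_bot ⟨hy2, hy⟩
        simpa using this
      rw [← hxy, hy0, add_zero]
      exact hx.2
  rw [eq_top_iff, ← wt_top A]
  apply iSup_le
  intro k
  by_cases hk0 : k < 0
  · rw [hpos k hk0]; exact bot_le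
  · obtain ⟨j, rfl⟩ := Int.eq_ofNat_of_zero_le (not_lt.1 hk0)
    exact hall j

end Pool.Agent.Helper62.VR
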