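import Mathlib

open scoped ComplexConjugate

namespace Pool.Agent.Helper62.VR

/-- homomorphisms into the circle group extend -/
theorem circle_extend {M : Type*} [CommGroup M] (f : M →* Circle) (hf : Function.Injective f)
    (g : M →* Circle) : ∃ h : Circle →* Circle, ∀ x, h (f x) = g x := by
  have : RootableBy Circle ℤ := rootableByOfPowLeftSurj _ _ (fun {n} hn => by
    intro z
    refine ⟨Circle.exp (Complex.arg z / n), ?_⟩
    show Circle.exp (Complex.arg z / n) ^ n = z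
    rw [← Circle.exp_intCast_mul, mul_div_cancel₀ _ (by exact_mod_cast hn), Circle.exp_arg])
  have : DivisibleBy (Additive Circle) ℤ :=
    { div := fun a n => Additive.ofMul (RootableBy.root a.toMul n)
      div_zero := fun a => by
        rw [RootableBy.root_zero]; rfl
      div_cancel := fun {n} a hn => by
        have := RootableBy.root_cancel (A := Circle) a.toMul hn
        rw [← ofMul_zpow, this]; rfl }
  obtain ⟨h, hh⟩ := (Module.Baer.of_divisible (Additive Circle)).extension_property_addMonoidHom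
    (MonoidHom.toAdditive f) (fun a b hab => by
      have : f a.toMul = f b.toMul := hab
      exact hf this) (MonoidHom.toAdditive g)
  refine ⟨MonoidHom.toAdditive.symm h, fun x => ?_⟩
  have h1 := DFunLike.congr_fun hh (Additive.ofMul x)
  exact h1

theorem exists_kappa (Γ : Subgroup Circle) (m : ℕ)
    (hΓ : ∀ z ∈ Γ, z ^ (2 ^ (m + 1)) = 1 → z ^ (2 ^ m) = 1) :
    ∃ κ : Circle →* Circle, ∀ z ∈ Γ, ((κ z) ^ 2 * z) ^ (2 ^ m) = 1 := by
  set Γm : Subgroup Circle := Γ.map (powMonoidHom (2 ^ m)) with hΓm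
  let f : Γm →* Circle := (powMonoidHom 2).comp Γm.subtype
  let g : Γm →* Circle := (invMonoidHom).comp Γm.subtype
  have hf : Function.Injective f := by
    rw [injective_iff_map_eq_one]
    rintro ⟨w, hw⟩ h1
    obtain ⟨z, hz, rfl⟩ := Subgroup.mem_map.1 hw
    have h2 : (z ^ 2 ^ m) ^ 2 = 1 := h1
    have h3 : z ^ (2 ^ (m + 1)) = 1 := by
      rw [pow_succ, pow_mul]; exact h2
    have h4 := hΓ z hz h3
    apply Subtype.ext
    exact h4
  obtain ⟨κ, hκ⟩ := circle_extend f hf g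
  refine ⟨κ, fun z hz => ?_⟩
  have hw : z ^ 2 ^ m ∈ Γm := Subgroup.mem_map.2 ⟨z, hz, rfl⟩
  have h1 : κ ((z ^ 2 ^ m) ^ 2) = (z ^ 2 ^ m)⁻¹ := hκ ⟨z ^ 2 ^ m, hw⟩
  rw [mul_pow, ← map_pow, ← map_pow]
  have h2 : (z ^ 2) ^ 2 ^ m = (z ^ 2 ^ m) ^ 2 := by rw [← pow_mul, ← pow_mul, mul_comm]
  rw [h2, h1, inv_mul_cancel]

/-- the 2-power torsion of a finitely generated group of phases has bounded order -/
theorem exists_bound (Γ : Subgroup Circle) (hfg : Γ.FG) :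
    ∃ m : ℕ, ∀ z ∈ Γ, z ^ (2 ^ (m + 1)) = 1 → z ^ (2 ^ m) = 1 := by
  have : Group.FG Γ := (Group.fg_iff_subgroup_fg Γ).2 hfg
  have : Module.Finite ℤ (Additive Γ) := Module.Finite.iff_addGroup_fg.2 inferInstance
  have : IsNoetherian ℤ (Additive Γ) := inferInstance
  let K : ℕ →o Submodule ℤ (Additive Γ) :=
    { toFun := fun i => LinearMap.ker (LinearMap.lsmul ℤ (Additive Γ) ((2 : ℤ) ^ i))
      monotone' := by
        intro i j hij x hx
        rw [LinearMap.mem_ker, LinearMap.lsmul_apply] at hx ⊢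
        obtain ⟨d, rfl⟩ := Nat.exists_eq_add_of_le hij
        rw [pow_add, mul_comm, mul_smul, hx, smul_zero] }
  obtain ⟨m, hm⟩ := monotone_stabilizes_iff_noetherian.2 inferInstance K
  refine ⟨m, fun z hz h1 => ?_⟩
  have h2 := hm (m + 1) (by omega)
  have h3 : (Additive.ofMul (⟨z, hz⟩ : Γ)) ∈ K (m + 1) := by
    show (Additive.ofMul (⟨z, hz⟩ : Γ)) ∈
      LinearMap.ker (LinearMap.lsmul ℤ (Additive Γ) ((2 : ℤ) ^ (m + 1)))
    rw [LinearMap.mem_ker, LinearMap.lsmul_apply]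
    have : ((2 : ℤ) ^ (m + 1)) • (Additive.ofMul (⟨z, hz⟩ : Γ)) =
        Additive.ofMul ((⟨z, hz⟩ : Γ) ^ (2 ^ (m + 1))) := by
      rw [ofMul_pow, ← natCast_zsmul]
      push_cast; rfl
    rw [this]
    have h4 : ((⟨z, hz⟩ : Γ) ^ (2 ^ (m + 1))) = 1 := by
      apply Subtype.ext
      simpa using h1
    rw [h4]; rfl
  rw [← h2] at h3
  have h5 : (Additive.ofMul (⟨z, hz⟩ : Γ)) ∈
      LinearMap.ker (LinearMap.lsmul ℤ (Additive Γ) ((2 : ℤ) ^ m)) := h3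
  rw [LinearMap.mem_ker, LinearMap.lsmul_apply] at h5
  have h6 : ((2 : ℤ) ^ m) • (Additive.ofMul (⟨z, hz⟩ : Γ)) =
      Additive.ofMul ((⟨z, hz⟩ : Γ) ^ (2 ^ m)) := by
    rw [ofMul_pow, ← natCast_zsmul]
    push_cast; rfl
  rw [h6] at h5
  have h7 : ((⟨z, hz⟩ : Γ) ^ (2 ^ m)) = 1 := h5
  have h8 := congrArg Subtype.val h7
  simpa using h8

/-- the phase of a complex number -/
noncomputable def phase (a : ℂ) : Circle := Circle.exp (Complex.arg a)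

theorem norm_mul_phase (a : ℂ) : (‖a‖ : ℂ) * (phase a : ℂ) = a := by
  unfold phase
  rw [Circle.coe_exp]
  exact Complex.norm_mul_exp_arg_mul_I a

theorem phase_eq {a : ℂ} (z : Circle) {r : ℝ} (hr : 0 < r) (h : (r : ℂ) * (z : ℂ) = a) :
    phase a = z := by
  have h1 : ‖a‖ = r := by
    rw [← h, norm_mul, Complex.norm_real, Circle.norm_coe, mul_one, Real.norm_eq_abs,
      abs_of_pos hr]
  have h2 : (r : ℂ) * (phase a : ℂ) = (r : ℂ) * (z : ℂ) := by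
    rw [h, ← h1]
    exact norm_mul_phase a
  have hr' : (r : ℂ) ≠ 0 := by exact_mod_cast hr.ne'
  apply Circle.ext
  exact mul_left_cancel₀ hr' h2

theorem phase_mul {a b : ℂ} (ha : a ≠ 0) (hb : b ≠ 0) : phase (a * b) = phase a * phase b := by
  apply phase_eq (r := ‖a‖ * ‖b‖)
  · have := norm_pos_iff.2 ha
    have := norm_pos_iff.2 hb
    positivity
  · have h1 := norm_mul_phase a
    have h2 := norm_mul_phase b
    calc ((‖a‖ * ‖b‖ : ℝ) : ℂ) * ((phase a * phase b : Circle) : ℂ)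
        = ((‖a‖ : ℂ) * phase a) * ((‖b‖ : ℂ) * phase b) := by push_cast; ring
      _ = a * b := by rw [h1, h2]

theorem phase_conj {a : ℂ} (ha : a ≠ 0) : phase (conj a) = (phase a)⁻¹ := by
  apply phase_eq (r := ‖a‖) _ (norm_pos_iff.2 ha)
  have h1 := congrArg conj (norm_mul_phase a)
  rw [map_mul, Complex.conj_ofReal] at h1
  rw [Circle.coe_inv_eq_conj]
  exact h1

theorem exists_chi (Γ : Subgroup Circle) (m : ℕ)
    (hΓ : ∀ z ∈ Γ, z ^ (2 ^ (m + 1)) = 1 → z ^ (2 ^ m) = 1) :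
    ∃ χ : ℂ → ℂ, χ 1 = 1 ∧ (∀ a b, χ (a * b) = χ a * χ b) ∧
      ∀ a, a ≠ 0 → phase a ∈ Γ → (χ a * conj (χ (conj a)) * a) ^ (2 ^ m) = 1 := by
  obtain ⟨κ, hκ⟩ := exists_kappa Γ m hΓ
  refine ⟨fun a => ((Real.sqrt ‖a‖)⁻¹ : ℝ) * (κ (phase a) : ℂ), ?_, ?_, ?_⟩
  · have h1 : phase (1 : ℂ) = 1 := by
      apply phase_eq (r := 1) _ one_pos
      simp
    show ((Real.sqrt ‖(1 : ℂ)‖)⁻¹ : ℝ) * (κ (phase (1 : ℂ)) : ℂ) = 1
    rw [h1, map_one]
    simp
  · intro a b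
    by_cases ha : a = 0
    · simp [ha]
    by_cases hb : b = 0
    · simp [hb]
    show ((Real.sqrt ‖a * b‖)⁻¹ : ℝ) * (κ (phase (a * b)) : ℂ) =
      (((Real.sqrt ‖a‖)⁻¹ : ℝ) * (κ (phase a) : ℂ)) * (((Real.sqrt ‖b‖)⁻¹ : ℝ) * (κ (phase b) : ℂ))
    rw [phase_mul ha hb, norm_mul, Real.sqrt_mul (norm_nonneg a), mul_inv, map_mul]
    push_cast
    ring
  · intro a ha hphase
    have hn : 0 < ‖a‖ := norm_pos_iff.2 ha
    have h1 := hκ _ hphase
    have h2 : ((((Real.sqrt ‖a‖)⁻¹ : ℝ) : ℂ) * (κ (phase a) : ℂ)) *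
        conj ((((Real.sqrt ‖conj a‖)⁻¹ : ℝ) : ℂ) * (κ (phase (conj a)) : ℂ)) * a =
        ((κ (phase a) ^ 2 * phase a : Circle) : ℂ) := by
      rw [phase_conj ha, map_inv, Circle.coe_inv_eq_conj, map_mul, Complex.conj_conj,
        Complex.conj_ofReal, RCLike.norm_conj]
      have h3 : (((Real.sqrt ‖a‖)⁻¹ : ℝ) : ℂ) * (((Real.sqrt ‖a‖)⁻¹ : ℝ) : ℂ) * (‖a‖ : ℂ) = 1 := by
        rw [← Complex.ofReal_mul, ← Complex.ofReal_mul, ← mul_inv, Real.mul_self_sqrt hn.le,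
          inv_mul_cancel₀ hn.ne', Complex.ofReal_one]
      calc (((Real.sqrt ‖a‖)⁻¹ : ℝ) : ℂ) * (κ (phase a) : ℂ) *
            ((((Real.sqrt ‖a‖)⁻¹ : ℝ) : ℂ) * (κ (phase a) : ℂ)) * a
          = (((Real.sqrt ‖a‖)⁻¹ : ℝ) : ℂ) * (κ (phase a) : ℂ) *
            ((((Real.sqrt ‖a‖)⁻¹ : ℝ) : ℂ) * (κ (phase a) : ℂ)) *
              ((‖a‖ : ℂ) * (phase a : ℂ)) := by rw [norm_mul_phase]
        _ = ((((Real.sqrt ‖a‖)⁻¹ : ℝ) : ℂ) * (((Real.sqrt ‖a‖)⁻¹ : ℝ) : ℂ) * (‖a‖ : ℂ)) *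
            ((κ (phase a) : ℂ) ^ 2 * (phase a : ℂ)) := by ring
        _ = ((κ (phase a) ^ 2 * phase a : Circle) : ℂ) := by
            rw [h3, one_mul]; push_cast; ring
    show (((((Real.sqrt ‖a‖)⁻¹ : ℝ) : ℂ) * (κ (phase a) : ℂ)) *
        conj ((((Real.sqrt ‖conj a‖)⁻¹ : ℝ) : ℂ) * (κ (phase (conj a)) : ℂ)) * a) ^ 2 ^ m = 1
    rw [h2, ← Circle.coe_pow, h1, Circle.coe_one]

end Pool.Agent.Helper62.VR
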