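import Pool.Agent.Helper62.VR.RealForm

open scoped ComplexConjugate

namespace Pool.Agent.Helper62.VR

variable {V : Type*} [AddCommGroup V] [Module ℂ V]

/-- a nonzero generalized eigenvector produces an eigenvector -/
theorem exists_eigenvector (g : Module.End ℂ V) {a : ℂ} {v : V}
    (hv : v ∈ g.maxGenEigenspace a) (hv0 : v ≠ 0) : ∃ w : V, w ≠ 0 ∧ g w = a • w := by
  classical
  obtain ⟨k, hk⟩ := (Module.End.mem_maxGenEigenspace _ _ _).1 hv
  have hex : ∃ k : ℕ, ((g - a • (1 : Module.End ℂ V)) ^ k) v = 0 := ⟨k, hk⟩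
  have hmin : ∀ j : ℕ, j < Nat.find hex → ¬ ((g - a • (1 : Module.End ℂ V)) ^ j) v = 0 :=
    fun j hj => Nat.find_min hex hj
  have hspec := Nat.find_spec hex
  rcases hj : Nat.find hex with _ | j
  · rw [hj] at hspec
    exact absurd (by simpa using hspec) hv0
  · rw [hj] at hspec
    refine ⟨((g - a • (1 : Module.End ℂ V)) ^ j) v, hmin j (by omega), ?_⟩
    rw [pow_succ', Module.End.mul_apply, LinearMap.sub_apply, LinearMap.smul_apply,
      Module.End.one_apply, sub_eq_zero] at hspec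
    exact hspec

/-- an antilinear map with `t² ` of finite order is bijective, so it is a semilinear
equivalence -/
theorem exists_equiv (t : V →ₛₗ[starRingEnd ℂ] V) (k : ℕ) (hk : 0 < k)
    (h : ∀ v, ((sq t) ^ k) v = v) :
    ∃ s : V ≃ₛₗ[starRingEnd ℂ] V, ∀ v, s v = t v := by
  obtain ⟨j, rfl⟩ := Nat.exists_eq_succ_of_ne_zero hk.ne'
  have hinj : Function.Injective t := by
    intro x y hxy
    have h1 := h x
    have h2 := h y
    rw [pow_succ, Module.End.mul_apply, sq_apply, hxy] at h1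
    rw [pow_succ, Module.End.mul_apply, sq_apply] at h2
    rw [← h1, h2]
  have hsurj : Function.Surjective t := by
    intro y
    refine ⟨t (((sq t) ^ j) y), ?_⟩
    have h1 := h y
    rw [pow_succ', Module.End.mul_apply, sq_apply] at h1
    exact h1
  exact ⟨LinearEquiv.ofBijective t ⟨hinj, hsurj⟩, fun v => rfl⟩

/-- The group of phases of eigenvalues of the square of an antilinear automorphism of a
simple vertex operator algebra. -/
theorem criterion (A : VOA V) (hA : A.IsSimple) (s : V ≃ₛₗ[starRingEnd ℂ] V)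
    (hs : A.IsAntiAut s) (hneg : ∀ r : ℝ, r < 0 → ∀ v : V, s (s v) = (r : ℂ) • v → v = 0)
    (G : Set (V ≃ₗ[ℂ] V)) (hG : ∀ g ∈ G, ∀ v, g (s v) = s (g v)) :
    A.HasStableRealForm G := by
  obtain ⟨hvac, hω, hmode⟩ := hs
  set f : V →ₛₗ[starRingEnd ℂ] V := s.toLinearMap with hf
  have hfs : ∀ v, f v = s v := fun v => rfl
  have hinj : Function.Injective f := s.injective
  have hg := sq_mode A f hmode
  have hginj : Function.Injective (sq f) := fun x y h => hinj (hinj h)
  have hne : ∀ a : ℂ, ∀ v ∈ (sq f).maxGenEigenspace a, v ≠ 0 → a ≠ 0 := by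
    intro a v hv hv0 ha
    rw [ha] at hv
    exact hv0 (gen_zero _ hginj hv)
  let Γ : Subgroup Circle :=
    { carrier := {z | ∃ a : ℂ, ∃ v ∈ (sq f).maxGenEigenspace a, v ≠ 0 ∧ phase a = z}
      one_mem' := by
        refine ⟨1, A.vac, ?_, hA.1, ?_⟩
        · rw [Module.End.mem_maxGenEigenspace]
          refine ⟨1, ?_⟩
          have : sq f A.vac = A.vac := by rw [sq_apply, hfs, hfs, hvac, hvac]
          simp [this]
        · apply phase_eq (r := 1) _ one_pos
          simp
      mul_mem' := by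
        rintro _ _ ⟨a, u, hu, hu0, rfl⟩ ⟨b, v, hv, hv0, rfl⟩
        obtain ⟨n, hn⟩ := exists_mode_ne_zero A hA hu0 hv0
        exact ⟨a * b, A.mode n u v, gen_mul A _ hg hu hv n, hn,
          phase_mul (hne a u hu hu0) (hne b v hv hv0)⟩
      inv_mem' := by
        rintro _ ⟨a, u, hu, hu0, rfl⟩
        refine ⟨conj a, f u, anti_gen f hu, ?_, phase_conj (hne a u hu hu0)⟩
        intro h
        exact hu0 (hinj (by rw [h, map_zero])) }
  have hΓ : ∀ z ∈ Γ, z ^ (2 ^ (0 + 1)) = 1 → z ^ (2 ^ 0) = 1 := by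
    rintro z ⟨a, u, hu, hu0, hz⟩ h2
    rw [zero_add, pow_one] at h2
    rw [pow_zero, pow_one]
    have h3 : ((z : ℂ)) ^ 2 = 1 := by
      rw [← Circle.coe_pow, h2, Circle.coe_one]
    rcases sq_eq_one_iff.1 h3 with h | h
    · exact Circle.ext (by rw [h, Circle.coe_one])
    · exfalso
      obtain ⟨w, hw0, hw⟩ := exists_eigenvector (sq f) hu hu0
      have ha : a = ((-‖a‖ : ℝ) : ℂ) := by
        have h4 := norm_mul_phase a
        rw [hz, h] at h4
        rw [Complex.ofReal_neg]
        rw [mul_neg, mul_one] at h4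
        exact h4.symm
      have hpos : 0 < ‖a‖ := norm_pos_iff.2 (hne a u hu hu0)
      exact hw0 (hneg (-‖a‖) (by linarith) w (by rw [← ha]; exact hw))
  obtain ⟨t, h1, h2, h3, h4, h5⟩ := modify A f hinj hvac hω hmode Γ 0 hΓ
    (fun a v hv hv0 => ⟨a, v, hv, hv0, rfl⟩)
  refine realForm_of_involution A t h1 h2 h3 ?_ G ?_
  · intro v
    have := h4 v
    rw [pow_zero, pow_one] at this
    exact this
  · intro g hg v
    exact h5 g.toLinearMap (fun v => hG g hg v) v

theorem criterion_iff (A : VOA V) (hA : A.IsSimple) (G : Set (V ≃ₗ[ℂ] V)) :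
    A.HasStableRealForm G ↔ ∃ s : V ≃ₛₗ[starRingEnd ℂ] V, A.IsAntiAut s ∧
      (∀ g ∈ G, ∀ v, g (s v) = s (g v)) ∧
      ∀ r : ℝ, r < 0 → ∀ v : V, s (s v) = (r : ℂ) • v → v = 0 := by
  constructor
  · intro h
    obtain ⟨t, h1, h2, h3, h4, h4'⟩ := involution_of_realForm A G h
    obtain ⟨s, hs⟩ := exists_equiv t 1 one_pos (by
      intro v
      rw [pow_one, sq_apply, h4])
    refine ⟨s, ⟨?_, ?_, ?_⟩, ?_, ?_⟩
    · rw [hs, h1]
    · rw [hs, h2]
    · intro n u v
      rw [hs, hs, hs, h3]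
    · intro g hg v
      rw [hs, hs, h4' g hg]
    · intro r hr v hv
      rw [hs, hs, h4] at hv
      have h5 : ((1 : ℂ) - (r : ℂ)) • v = 0 := by
        rw [sub_smul, one_smul, ← hv, sub_self]
      rcases smul_eq_zero.1 h5 with h | h
      · exfalso
        have : (1 : ℂ) = (r : ℂ) := sub_eq_zero.1 h
        have h6 : (1 : ℝ) = r := by exact_mod_cast this
        linarith
      · exact h
  · rintro ⟨s, hs, hG, hneg⟩
    exact criterion A hA s hs hneg G hG

end Pool.Agent.Helper62.VR
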