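import Mathlib

/-!
Vertex operator algebras over the complex numbers, their automorphisms and antilinear
automorphisms, real forms, and the conditions used in the statements (simplicity,
non-negative grading, C2-cofiniteness).
-/

namespace Pool.Agent.Helper62.VR

/-- A vertex operator algebra over the complex numbers, given by its modes:
`mode n u v` is `u(n)v`. -/
structure VOA (V : Type*) [AddCommGroup V] [Module ℂ V] where
  /-- the modes, `mode n u v = u(n)v` -/
  mode : ℤ → V →ₗ[ℂ] V →ₗ[ℂ] V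
  /-- the vacuum vector -/
  vac : V
  /-- the Virasoro vector -/
  omega : V
  /-- the central charge -/
  charge : ℂ
  /-- `u(n)v = 0` for all large `n` -/
  truncation : ∀ u v : V, ∃ N : ℤ, ∀ n : ℤ, N ≤ n → mode n u v = 0
  /-- `Y(1,z)` is the identity -/
  vacuum : ∀ (n : ℤ) (v : V), mode n vac v = if n = -1 then v else 0
  /-- creation: `u(n)1 = 0` for `n ≥ 0` -/
  creation_nonneg : ∀ (n : ℤ) (u : V), 0 ≤ n → mode n u vac = 0
  /-- creation: `u(-1)1 = u` -/
  creation : ∀ u : V, mode (-1) u vac = u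
  /-- the Borcherds identity (all sums are finite, by truncation: the partial sums are
  equal from some point on) -/
  borcherds : ∀ (p q r : ℤ) (u v w : V), ∃ N₀ : ℕ, ∀ N : ℕ, N₀ ≤ N →
    ∑ i ∈ Finset.range N,
        ((Ring.choose p i : ℤ) : ℂ) • mode (p + q - i) (mode (r + i) u v) w =
      ∑ i ∈ Finset.range N, ((-1 : ℂ) ^ i * ((Ring.choose r i : ℤ) : ℂ)) •
        (mode (p + r - i) u (mode (q + i) v w) -
          (-1 : ℂ) ^ r • mode (q + r - i) v (mode (p + i) u w))
  /-- the Virasoro relations for `L(n) = omega(n+1)` -/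
  virasoro : ∀ (m n : ℤ) (v : V),
    mode (m + 1) omega (mode (n + 1) omega v) - mode (n + 1) omega (mode (m + 1) omega v) =
      ((m : ℂ) - n) • mode (m + n + 1) omega v +
        (if m + n = 0 then (((m : ℂ) ^ 3 - m) / 12 * charge) • v else 0)
  /-- `Y(L(-1)u,z)` is the derivative of `Y(u,z)` -/
  translation : ∀ (n : ℤ) (u v : V),
    mode n (mode 0 omega u) v = -(n : ℂ) • mode (n - 1) u v
  /-- `L(0)` is diagonalisable with integral eigenvalues -/
  graded : ⨆ n : ℤ, Module.End.eigenspace (mode 1 omega) (n : ℂ) = ⊤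
  /-- the eigenspaces of `L(0)` are finite-dimensional -/
  finite : ∀ n : ℤ, FiniteDimensional ℂ (Module.End.eigenspace (mode 1 omega) (n : ℂ))
  /-- the grading is bounded below -/
  bounded : ∃ N : ℤ, ∀ n : ℤ, n < N → Module.End.eigenspace (mode 1 omega) (n : ℂ) = ⊥

variable {V : Type*} [AddCommGroup V] [Module ℂ V]

namespace VOA

/-- The homogeneous subspace `V_n`, the eigenspace of `L(0)` for the eigenvalue `n`. -/
def wt (A : VOA V) (n : ℤ) : Submodule ℂ V :=
  Module.End.eigenspace (A.mode 1 A.omega) (n : ℂ)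

/-- `V` is simple: it is nonzero and its only ideals are `0` and `V`. -/
def IsSimple (A : VOA V) : Prop :=
  A.vac ≠ 0 ∧ ∀ I : Submodule ℂ V, (∀ (n : ℤ) (u v : V), v ∈ I → A.mode n u v ∈ I) →
    I = ⊥ ∨ I = ⊤

/-- `V` has non-negative grading: `V_n = 0` for `n < 0`. -/
def NonnegGraded (A : VOA V) : Prop := ∀ n : ℤ, n < 0 → A.wt n = ⊥

/-- `C_2(V)`, the span of all `u(-2)v`. -/
def C₂ (A : VOA V) : Submodule ℂ V :=
  Submodule.span ℂ {x | ∃ u v : V, x = A.mode (-2) u v}

/-- `V` is `C_2`-cofinite: `V/C_2(V)` is finite-dimensional. -/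
def C₂Cofinite (A : VOA V) : Prop := FiniteDimensional ℂ (V ⧸ A.C₂)

/-- A (linear) automorphism of `V`. -/
def IsAut (A : VOA V) (g : V ≃ₗ[ℂ] V) : Prop :=
  g A.vac = A.vac ∧ g A.omega = A.omega ∧
    ∀ (n : ℤ) (u v : V), g (A.mode n u v) = A.mode n (g u) (g v)

/-- An antilinear automorphism of `V`; it is the same as an isomorphism from `V` to its
complex conjugate. -/
def IsAntiAut (A : VOA V) (s : V ≃ₛₗ[starRingEnd ℂ] V) : Prop :=
  s A.vac = A.vac ∧ s A.omega = A.omega ∧
    ∀ (n : ℤ) (u v : V), s (A.mode n u v) = A.mode n (s u) (s v)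

/-- `V` has a real form that is stable under all members of `Γ`: a real subspace `U` that
contains the vacuum and the Virasoro vector, is closed under all modes, satisfies
`V = U ⊕ iU`, and is mapped into itself by every `g` in `Γ`. For empty `Γ` this says that `V`
has a real form. -/
def HasStableRealForm (A : VOA V) (Γ : Set (V ≃ₗ[ℂ] V)) : Prop :=
  ∃ U : Submodule ℝ V, A.vac ∈ U ∧ A.omega ∈ U ∧
    (∀ (n : ℤ) (u v : V), u ∈ U → v ∈ U → A.mode n u v ∈ U) ∧
    (∀ v : V, ∃ x ∈ U, ∃ y ∈ U, v = x + Complex.I • y) ∧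
    (∀ x ∈ U, ∀ y ∈ U, x = Complex.I • y → x = 0) ∧
    (∀ g ∈ Γ, ∀ u ∈ U, g u ∈ U)

/-- The subspace `W` of `V` (which will be a subalgebra of fixed points) has a real form: there
is a real subspace `U` that contains the vacuum and the Virasoro vector, is closed under all
modes, and satisfies `W = U ⊕ iU`. -/
def HasRealFormOn (A : VOA V) (W : Submodule ℂ V) : Prop :=
  ∃ U : Submodule ℝ V, A.vac ∈ U ∧ A.omega ∈ U ∧
    (∀ (n : ℤ) (u v : V), u ∈ U → v ∈ U → A.mode n u v ∈ U) ∧
    (∀ v : V, v ∈ W ↔ ∃ x ∈ U, ∃ y ∈ U, v = x + Complex.I • y) ∧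
    (∀ x ∈ U, ∀ y ∈ U, x = Complex.I • y → x = 0)

end VOA

/-- The fixed points of `s²`, for an antilinear `s`. -/
def fixedSq (s : V ≃ₛₗ[starRingEnd ℂ] V) : Submodule ℂ V where
  carrier := {v | s (s v) = v}
  add_mem' := by
    intro a b ha hb
    show s (s (a + b)) = a + b
    rw [map_add, map_add, ha, hb]
  zero_mem' := by
    show s (s 0) = 0
    rw [map_zero, map_zero]
  smul_mem' := by
    intro c x hx
    show s (s (c • x)) = c • x
    rw [LinearEquiv.map_smulₛₗ, LinearEquiv.map_smulₛₗ, Complex.conj_conj, hx]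

/-- The eigenspace of `s²` for the eigenvalue `-1`, for an antilinear `s`. -/
def negSq (s : V ≃ₛₗ[starRingEnd ℂ] V) : Submodule ℂ V where
  carrier := {v | s (s v) = -v}
  add_mem' := by
    intro a b ha hb
    show s (s (a + b)) = -(a + b)
    rw [map_add, map_add, ha, hb, neg_add]
  zero_mem' := by
    show s (s 0) = -0
    rw [map_zero, map_zero, neg_zero]
  smul_mem' := by
    intro c x hx
    show s (s (c • x)) = -(c • x)
    rw [LinearEquiv.map_smulₛₗ, LinearEquiv.map_smulₛₗ, Complex.conj_conj, hx, smul_neg]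

end Pool.Agent.Helper62.VR
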