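import Pool.Agent.Helper62.VR.Basic

namespace Pool.Agent.Helper62.VR

variable {V : Type*} [AddCommGroup V] [Module ℂ V]

theorem pow_comm_apply (g : Module.End ℂ V) (b : ℂ) (l : ℕ) (v : V) :
    ((g - b • (1 : Module.End ℂ V)) ^ l) (g v) = g (((g - b • (1 : Module.End ℂ V)) ^ l) v) := by
  have hc : Commute (g - b • (1 : Module.End ℂ V)) g := by
    apply Commute.sub_left (Commute.refl g)
    exact (Commute.one_left g).smul_left b
  have h := (hc.pow_left l).eq
  have := LinearMap.congr_fun h v
  simpa [Module.End.mul_apply] using this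

/-- generalized eigenvectors of a multiplicative operator multiply -/
theorem gen_mul (A : VOA V) (g : Module.End ℂ V)
    (hg : ∀ (n : ℤ) (u v : V), g (A.mode n u v) = A.mode n (g u) (g v))
    {a b : ℂ} {u v : V} (hu : u ∈ g.maxGenEigenspace a) (hv : v ∈ g.maxGenEigenspace b)
    (n : ℤ) : A.mode n u v ∈ g.maxGenEigenspace (a * b) := by
  rw [Module.End.mem_maxGenEigenspace] at hu hv ⊢
  obtain ⟨k, hk⟩ := hu
  obtain ⟨l, hl⟩ := hv
  refine ⟨k + l, ?_⟩
  have main : ∀ s k l : ℕ, ∀ u v : V, k + l = s →
      ((g - a • (1 : Module.End ℂ V)) ^ k) u = 0 → ((g - b • (1 : Module.End ℂ V)) ^ l) v = 0 →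
      ((g - (a * b) • (1 : Module.End ℂ V)) ^ s) (A.mode n u v) = 0 := by
    intro s
    induction s with
    | zero =>
      intro k l u v hkl hu hv
      have hk0 : k = 0 := by omega
      subst hk0
      simp only [pow_zero, Module.End.one_apply] at hu ⊢
      rw [hu]; simp
    | succ s ih =>
      intro k l u v hkl hu hv
      rcases k with _ | k
      · simp only [pow_zero, Module.End.one_apply] at hu
        rw [hu]; simp
      rcases l with _ | l
      · simp only [pow_zero, Module.End.one_apply] at hv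
        rw [hv]; simp
      have h1 : (g - (a * b) • (1 : Module.End ℂ V)) (A.mode n u v) =
          A.mode n ((g - a • (1 : Module.End ℂ V)) u) (g v) +
            a • A.mode n u ((g - b • (1 : Module.End ℂ V)) v) := by
        simp only [LinearMap.sub_apply, LinearMap.smul_apply, Module.End.one_apply, map_sub,
          map_smul, hg, smul_sub, smul_smul]
        abel
      rw [pow_succ, Module.End.mul_apply, h1, map_add, map_smul]
      have e1 := ih k (l + 1) ((g - a • (1 : Module.End ℂ V)) u) (g v) (by omega)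
        (by rw [← Module.End.mul_apply, ← pow_succ]; exact hu)
        (by rw [pow_comm_apply, hv, map_zero])
      have e2 := ih (k + 1) l u ((g - b • (1 : Module.End ℂ V)) v) (by omega) hu
        (by rw [← Module.End.mul_apply, ← pow_succ]; exact hv)
      rw [e1, e2]; simp
  exact main (k + l) k l u v rfl hk hl

/-- an operator that preserves the Virasoro vector and the modes preserves the grading -/
theorem map_wt (A : VOA V) (g : Module.End ℂ V) (hω : g A.omega = A.omega)
    (hg : ∀ (n : ℤ) (u v : V), g (A.mode n u v) = A.mode n (g u) (g v))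
    {n : ℤ} {v : V} (hv : v ∈ A.wt n) : g v ∈ A.wt n := by
  rw [mem_wt] at hv ⊢
  have h := hg 1 A.omega v
  rw [hω, hv, map_smul] at h
  exact h.symm

theorem iSup_gen (A : VOA V) (g : Module.End ℂ V) (hω : g A.omega = A.omega)
    (hg : ∀ (n : ℤ) (u v : V), g (A.mode n u v) = A.mode n (g u) (g v)) :
    ⨆ a : ℂ, g.maxGenEigenspace a = ⊤ := by
  rw [eq_top_iff, ← A.graded]
  apply iSup_le
  intro n
  have hW : ∀ x ∈ Module.End.eigenspace (A.mode 1 A.omega) (n : ℂ),
      g x ∈ Module.End.eigenspace (A.mode 1 A.omega) (n : ℂ) := by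
    intro x hx
    exact map_wt A g hω hg hx
  have := A.finite n
  have h := Module.End.iSup_maxGenEigenspace_eq_top (LinearMap.restrict g hW)
  intro x hx
  have hx2 : (⟨x, hx⟩ : Module.End.eigenspace (A.mode 1 A.omega) (n : ℂ)) ∈
      ⨆ μ, Module.End.maxGenEigenspace (LinearMap.restrict g hW) μ := by rw [h]; trivial
  have hx3 := Submodule.mem_map_of_mem
    (f := (Module.End.eigenspace (A.mode 1 A.omega) (n : ℂ)).subtype) hx2
  rw [Submodule.map_iSup] at hx3
  have hle : ∀ μ : ℂ, Submodule.map
      (Module.End.eigenspace (A.mode 1 A.omega) (n : ℂ)).subtype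
      (Module.End.maxGenEigenspace (LinearMap.restrict g hW) μ) ≤ g.maxGenEigenspace μ := by
    intro μ
    rw [Module.End.maxGenEigenspace, Module.End.genEigenspace_restrict]
    exact Submodule.map_comap_le _ _
  exact (iSup_mono hle) hx3

/-- linear operators given by scalars on the members of a direct decomposition -/
theorem exists_scale (G : ℂ → Submodule ℂ V) (hind : iSupIndep G) (htop : ⨆ a, G a = ⊤)
    (χ : ℂ → ℂ) : ∃ h : V →ₗ[ℂ] V, ∀ a : ℂ, ∀ v ∈ G a, h v = χ a • v := by
  classical
  have hI : DirectSum.IsInternal G :=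
    DirectSum.isInternal_submodule_of_iSupIndep_of_iSup_eq_top hind htop
  let e := LinearEquiv.ofBijective (DirectSum.coeLinearMap G) hI
  refine ⟨(DirectSum.toModule ℂ ℂ V (fun l => χ l • (G l).subtype)) ∘ₗ e.symm.toLinearMap, ?_⟩
  intro l v hv
  have h1 : e.symm v = DirectSum.lof ℂ ℂ (fun l => G l) l ⟨v, hv⟩ := by
    rw [LinearEquiv.symm_apply_eq]
    have h2 : e (DirectSum.lof ℂ ℂ (fun l => G l) l ⟨v, hv⟩) =
        DirectSum.coeLinearMap G (DirectSum.lof ℂ ℂ (fun l => G l) l ⟨v, hv⟩) := rfl
    rw [h2, DirectSum.coeLinearMap_lof]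
  simp [h1]

/-- two linear or semilinear statements agree everywhere when they agree on all `G a` -/
theorem forall_of_gen {G : ℂ → Submodule ℂ V} (htop : ⨆ a, G a = ⊤) {P : V → Prop}
    (h0 : P 0) (hadd : ∀ x y, P x → P y → P (x + y)) (hG : ∀ a : ℂ, ∀ v ∈ G a, P v) :
    ∀ v, P v := by
  intro v
  have hv : v ∈ ⨆ a, G a := by rw [htop]; trivial
  exact Submodule.iSup_induction G hv (motive := P) (fun i x hx => hG i x hx) h0 hadd

end Pool.Agent.Helper62.VR
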