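import Pool.Agent.Helper62.VR.Unip
import Pool.Agent.Helper62.VR.Circ

open scoped ComplexConjugate

namespace Pool.Agent.Helper62.VR

variable {V : Type*} [AddCommGroup V] [Module ℂ V]

/-- the square of an antilinear map, as a linear map -/
def sq (s : V →ₛₗ[starRingEnd ℂ] V) : Module.End ℂ V where
  toFun v := s (s v)
  map_add' x y := by rw [map_add, map_add]
  map_smul' c x := by
    rw [LinearMap.map_smulₛₗ, LinearMap.map_smulₛₗ, Complex.conj_conj, RingHom.id_apply]

theorem sq_apply (s : V →ₛₗ[starRingEnd ℂ] V) (v : V) : sq s v = s (s v) := rfl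

theorem sq_mode (A : VOA V) (s : V →ₛₗ[starRingEnd ℂ] V)
    (hs : ∀ (n : ℤ) (u v : V), s (A.mode n u v) = A.mode n (s u) (s v)) (n : ℤ) (u v : V) :
    sq s (A.mode n u v) = A.mode n (sq s u) (sq s v) := by
  rw [sq_apply, hs, hs]; rfl

theorem anti_pow (s : V →ₛₗ[starRingEnd ℂ] V) (a : ℂ) (k : ℕ) (v : V) :
    ((sq s - (conj a) • (1 : Module.End ℂ V)) ^ k) (s v) =
      s (((sq s - a • (1 : Module.End ℂ V)) ^ k) v) := by
  induction k generalizing v with
  | zero => simp
  | succ k ih =>
    rw [pow_succ, Module.End.mul_apply, pow_succ, Module.End.mul_apply, ← ih]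
    congr 1
    simp only [LinearMap.sub_apply, LinearMap.smul_apply, Module.End.one_apply, map_sub,
      LinearMap.map_smulₛₗ, sq_apply]

theorem anti_gen (s : V →ₛₗ[starRingEnd ℂ] V) {a : ℂ} {v : V}
    (hv : v ∈ (sq s).maxGenEigenspace a) : s v ∈ (sq s).maxGenEigenspace (conj a) := by
  rw [Module.End.mem_maxGenEigenspace] at hv ⊢
  obtain ⟨k, hk⟩ := hv
  exact ⟨k, by rw [anti_pow, hk, map_zero]⟩

/-- generalized eigenspaces are stable under the operator -/
theorem gen_stable (g : Module.End ℂ V) {a : ℂ} {v : V} (hv : v ∈ g.maxGenEigenspace a) :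
    g v ∈ g.maxGenEigenspace a := by
  rw [Module.End.mem_maxGenEigenspace] at hv ⊢
  obtain ⟨k, hk⟩ := hv
  exact ⟨k, by rw [pow_comm_apply, hk, map_zero]⟩

/-- the zero generalized eigenspace of an injective operator vanishes -/
theorem gen_zero (g : Module.End ℂ V) (hg : Function.Injective g) {v : V}
    (hv : v ∈ g.maxGenEigenspace 0) : v = 0 := by
  rw [Module.End.mem_maxGenEigenspace] at hv
  obtain ⟨k, hk⟩ := hv
  rw [zero_smul, sub_zero] at hk
  induction k with
  | zero => simpa using hk
  | succ k ih =>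
    rw [pow_succ', Module.End.mul_apply] at hk
    exact ih (hg (by rw [hk, map_zero]))

/-- Every antilinear automorphism can be changed into one of order dividing `2^(m+1)`, when
the phases of the eigenvalues of its square lie in a group whose 2-power torsion has exponent
dividing `2^m`. -/
theorem modify (A : VOA V) (s : V →ₛₗ[starRingEnd ℂ] V) (hinj : Function.Injective s)
    (hvac : s A.vac = A.vac) (hω : s A.omega = A.omega)
    (hs : ∀ (n : ℤ) (u v : V), s (A.mode n u v) = A.mode n (s u) (s v))
    (Γ : Subgroup Circle) (m : ℕ)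
    (hΓ : ∀ z ∈ Γ, z ^ (2 ^ (m + 1)) = 1 → z ^ (2 ^ m) = 1)
    (hmem : ∀ a : ℂ, ∀ v ∈ (sq s).maxGenEigenspace a, v ≠ 0 → phase a ∈ Γ) :
    ∃ t : V →ₛₗ[starRingEnd ℂ] V, t A.vac = A.vac ∧ t A.omega = A.omega ∧
      (∀ (n : ℤ) (u v : V), t (A.mode n u v) = A.mode n (t u) (t v)) ∧
      (∀ v, ((sq t) ^ (2 ^ m)) v = v) ∧
      (∀ b : V →ₗ[ℂ] V, (∀ v, b (s v) = s (b v)) → ∀ v, b (t v) = t (b v)) := by
  obtain ⟨χ, hχ1, hχmul, hχ⟩ := exists_chi Γ m hΓ
  have hgvac : sq s A.vac = A.vac := by rw [sq_apply, hvac, hvac]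
  have hgω : sq s A.omega = A.omega := by rw [sq_apply, hω, hω]
  have hg := sq_mode A s hs
  have hginj : Function.Injective (sq s) := fun x y h => hinj (hinj h)
  have hind : iSupIndep (fun a : ℂ => (sq s).maxGenEigenspace a) :=
    (sq s).independent_maxGenEigenspace
  have htop : ⨆ a : ℂ, (sq s).maxGenEigenspace a = ⊤ := iSup_gen A (sq s) hgω hg
  obtain ⟨τ, hτ⟩ := exists_scale _ hind htop (fun a => a⁻¹)
  obtain ⟨h, hh⟩ := exists_scale _ hind htop χ
  -- the unipotent part
  set N : Module.End ℂ V := (sq s) * τ - 1 with hN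
  have h1N : (1 : Module.End ℂ V) + N = (sq s) * τ := by rw [hN]; abel
  have hu : ∀ a : ℂ, ∀ v ∈ (sq s).maxGenEigenspace a, (1 + N) v = a⁻¹ • sq s v := by
    intro a v hv
    rw [h1N, Module.End.mul_apply, hτ a v hv, map_smul]
  have hNv : ∀ a : ℂ, ∀ v ∈ (sq s).maxGenEigenspace a, N v = a⁻¹ • sq s v - v := by
    intro a v hv
    rw [hN, LinearMap.sub_apply, Module.End.mul_apply, hτ a v hv, map_smul,
      Module.End.one_apply]
  have hNst : ∀ a : ℂ, ∀ v ∈ (sq s).maxGenEigenspace a, N v ∈ (sq s).maxGenEigenspace a := by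
    intro a v hv
    rw [hNv a v hv]
    exact Submodule.sub_mem _ (Submodule.smul_mem _ _ (gen_stable _ hv)) hv
  have hNnil : ∀ v : V, ∃ k : ℕ, (N ^ k) v = 0 := by
    refine forall_of_gen htop (P := fun v => ∃ k : ℕ, (N ^ k) v = 0) ?_ ?_ ?_
    · exact ⟨0, by simp⟩
    · rintro x y ⟨k, hk⟩ ⟨l, hl⟩
      refine ⟨k + l, ?_⟩
      rw [map_add, add_comm k l, pow_add, Module.End.mul_apply, hk, map_zero, zero_add,
        ← pow_add, add_comm l k, pow_add, Module.End.mul_apply, hl, map_zero]
    · intro a v hv
      by_cases ha : a = 0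
      · rw [ha] at hv
        rw [gen_zero _ hginj hv]
        exact ⟨0, by simp⟩
      · have h1 : ∀ k : ℕ, ∀ v ∈ (sq s).maxGenEigenspace a,
            (N ^ k) v = (a⁻¹) ^ k • ((sq s - a • (1 : Module.End ℂ V)) ^ k) v := by
          intro k
          induction k with
          | zero => intro v _; simp
          | succ k ih =>
            intro v hv
            rw [pow_succ, Module.End.mul_apply, ih _ (hNst a v hv), hNv a v hv]
            have h2 : a⁻¹ • sq s v - v = a⁻¹ • ((sq s - a • (1 : Module.End ℂ V)) v) := by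
              rw [LinearMap.sub_apply, LinearMap.smul_apply, Module.End.one_apply, smul_sub,
                smul_smul, inv_mul_cancel₀ ha, one_smul]
            rw [h2, map_smul, smul_smul, ← pow_succ, ← Module.End.mul_apply, ← pow_succ]
        obtain ⟨k, hk⟩ := (Module.End.mem_maxGenEigenspace _ _ _).1 hv
        exact ⟨k, by rw [h1 k v hv, hk, smul_zero]⟩
  have hNmul : ∀ (n : ℤ) (u v : V),
      (1 + N) (A.mode n u v) = A.mode n ((1 + N) u) ((1 + N) v) := by
    intro n u v
    revert v
    refine forall_of_gen htop (P := fun u => ∀ v : V, (1 + N) (A.mode n u v) =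
      A.mode n ((1 + N) u) ((1 + N) v)) ?_ ?_ ?_ u
    · intro v; simp
    · intro x y hx hy v
      rw [map_add (A.mode n), LinearMap.add_apply (A.mode n x) (A.mode n y),
        map_add (1 + N), hx, hy, map_add (1 + N), map_add (A.mode n),
        LinearMap.add_apply (A.mode n ((1 + N) x))]
    · intro a u hu'
      refine forall_of_gen htop (P := fun v => (1 + N) (A.mode n u v) =
        A.mode n ((1 + N) u) ((1 + N) v)) ?_ ?_ ?_
      · simp
      · intro x y hx hy
        rw [map_add (A.mode n u), map_add (1 + N), hx, hy, map_add (1 + N) x y,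
          map_add (A.mode n ((1 + N) u))]
      · intro b v hv
        rw [hu (a * b) _ (gen_mul A _ hg hu' hv n), hu a u hu', hu b v hv, hg]
        simp only [map_smul, LinearMap.smul_apply, smul_smul]
        congr 1
        rw [mul_inv]; ring
  have hsN : ∀ v, s (N v) = N (s v) := by
    refine forall_of_gen htop (P := fun v => s (N v) = N (s v)) ?_ ?_ ?_
    · simp
    · intro x y hx hy
      rw [map_add, map_add, hx, hy, map_add, map_add]
    · intro a v hv
      rw [hNv a v hv, hNv (conj a) (s v) (anti_gen s hv), map_sub, LinearMap.map_smulₛₗ,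
        map_inv₀, sq_apply, sq_apply]
  have hhN : ∀ v, h (N v) = N (h v) := by
    refine forall_of_gen htop (P := fun v => h (N v) = N (h v)) ?_ ?_ ?_
    · simp
    · intro x y hx hy
      rw [map_add, map_add, hx, hy, map_add, map_add]
    · intro a v hv
      rw [hh a _ (hNst a v hv), hh a v hv, map_smul]
  obtain ⟨w, hwmul, hwsq, hwst, hwlin, hwanti, hwfix⟩ := exists_powers A N hNnil hNmul
  have hw_anti : ∀ v, s (w v) = w (s v) := hwanti s hsN
  have hhmul : ∀ (n : ℤ) (u v : V), h (A.mode n u v) = A.mode n (h u) (h v) := by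
    intro n u v
    revert v
    refine forall_of_gen htop (P := fun u => ∀ v : V, h (A.mode n u v) =
      A.mode n (h u) (h v)) ?_ ?_ ?_ u
    · intro v; simp
    · intro x y hx hy v
      rw [map_add, LinearMap.add_apply, map_add, hx, hy, map_add h, map_add (A.mode n),
        LinearMap.add_apply]
    · intro a u hu'
      refine forall_of_gen htop (P := fun v => h (A.mode n u v) =
        A.mode n (h u) (h v)) ?_ ?_ ?_
      · simp
      · intro x y hx hy
        rw [map_add, map_add, hx, hy, map_add h, map_add]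
      · intro b v hv
        rw [hh (a * b) _ (gen_mul A _ hg hu' hv n), hh a u hu', hh b v hv]
        simp only [map_smul, LinearMap.smul_apply, smul_smul]
        congr 1
        rw [hχmul]; ring
  have hfix : ∀ x : V, sq s x = x → h x = x ∧ w x = x := by
    intro x hx
    have hx1 : x ∈ (sq s).maxGenEigenspace 1 := by
      rw [Module.End.mem_maxGenEigenspace]
      exact ⟨1, by simp [hx]⟩
    constructor
    · rw [hh 1 x hx1, hχ1, one_smul]
    · apply hwfix
      rw [hNv 1 x hx1, hx]; simp
  refine ⟨(w ∘ₗ h).comp s, ?_, ?_, ?_, ?_, ?_⟩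
  · show w (h (s A.vac)) = A.vac
    rw [hvac, (hfix _ hgvac).1, (hfix _ hgvac).2]
  · show w (h (s A.omega)) = A.omega
    rw [hω, (hfix _ hgω).1, (hfix _ hgω).2]
  · intro n u v
    show w (h (s (A.mode n u v))) = A.mode n (w (h (s u))) (w (h (s v)))
    rw [hs, hhmul, hwmul]
  · set t : V →ₛₗ[starRingEnd ℂ] V := (w ∘ₗ h).comp s with ht
    have htv : ∀ v, t v = w (h (s v)) := fun v => rfl
    have key : ∀ a : ℂ, ∀ v ∈ (sq s).maxGenEigenspace a,
        sq t v = (χ a * conj (χ (conj a)) * a) • v := by
      intro a v hv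
      by_cases ha : a = 0
      · rw [ha] at hv
        rw [gen_zero _ hginj hv]; simp
      have h1 : h (s v) = χ (conj a) • s v := hh _ _ (anti_gen s hv)
      have h2 : w (sq s v) ∈ (sq s).maxGenEigenspace a :=
        hwst _ (hNst a) _ (gen_stable _ hv)
      have h3 : w (w (sq s v)) = a • v := by
        have h4 := hwsq v
        rw [hu a v hv, map_smul, map_smul] at h4
        rw [← h4, smul_smul, mul_inv_cancel₀ ha, one_smul, h4]
      rw [sq_apply, htv, htv v, h1, map_smul, LinearMap.map_smulₛₗ, hw_anti, ← sq_apply,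
        map_smul, hh a _ h2, map_smul, map_smul, h3, smul_smul, smul_smul]
      congr 1
      ring
    have keypow : ∀ j : ℕ, ∀ a : ℂ, ∀ v ∈ (sq s).maxGenEigenspace a,
        ((sq t) ^ j) v = (χ a * conj (χ (conj a)) * a) ^ j • v := by
      intro j
      induction j with
      | zero => intro a v _; simp
      | succ j ih =>
        intro a v hv
        rw [pow_succ', Module.End.mul_apply, ih a v hv, map_smul, key a v hv, smul_smul,
          pow_succ]
    refine forall_of_gen htop (P := fun v => ((sq t) ^ (2 ^ m)) v = v) ?_ ?_ ?_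
    · simp
    · intro x y hx hy
      rw [map_add, hx, hy]
    · intro a v hv
      by_cases hv0 : v = 0
      · rw [hv0, map_zero]
      by_cases ha : a = 0
      · rw [ha] at hv
        exact absurd (gen_zero _ hginj hv) hv0
      rw [keypow (2 ^ m) a v hv, hχ a ha (hmem a v hv hv0), one_smul]
  · intro b hb
    have hbsq : ∀ v, b (sq s v) = sq s (b v) := by
      intro v
      rw [sq_apply, hb, hb, sq_apply]
    have hbpow : ∀ (a : ℂ) (k : ℕ) (v : V), b (((sq s - a • (1 : Module.End ℂ V)) ^ k) v) =
        ((sq s - a • (1 : Module.End ℂ V)) ^ k) (b v) := by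
      intro a k
      induction k with
      | zero => intro v; simp
      | succ k ih =>
        intro v
        rw [pow_succ, Module.End.mul_apply, ih, Module.End.mul_apply]
        congr 1
        simp only [LinearMap.sub_apply, LinearMap.smul_apply, Module.End.one_apply, map_sub,
          map_smul, hbsq]
    have hbgen : ∀ a : ℂ, ∀ v ∈ (sq s).maxGenEigenspace a, b v ∈ (sq s).maxGenEigenspace a := by
      intro a v hv
      rw [Module.End.mem_maxGenEigenspace] at hv ⊢
      obtain ⟨k, hk⟩ := hv
      exact ⟨k, by rw [← hbpow, hk, map_zero]⟩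
    have hbN : ∀ v, b (N v) = N (b v) := by
      refine forall_of_gen htop (P := fun v => b (N v) = N (b v)) ?_ ?_ ?_
      · simp
      · intro x y hx hy
        rw [map_add, map_add, hx, hy, map_add, map_add]
      · intro a v hv
        rw [hNv a v hv, hNv a (b v) (hbgen a v hv), map_sub, map_smul, hbsq]
    have hbh : ∀ v, b (h v) = h (b v) := by
      refine forall_of_gen htop (P := fun v => b (h v) = h (b v)) ?_ ?_ ?_
      · simp
      · intro x y hx hy
        rw [map_add, map_add, hx, hy, map_add, map_add]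
      · intro a v hv
        rw [hh a v hv, hh a (b v) (hbgen a v hv), map_smul]
    intro v
    show b (w (h (s v))) = w (h (s (b v)))
    rw [hwlin b hbN, hbh, hb]

end Pool.Agent.Helper62.VR
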