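import Pool.Agent.Helper62.VR.TwoPower

open scoped ComplexConjugate

namespace Pool.Agent.Helper62.VR

theorem even_of_quaternionic {W : Type*} [AddCommGroup W] [Module ℂ W] [FiniteDimensional ℂ W]
    (j : W →ₛₗ[starRingEnd ℂ] W) (hj : ∀ w, j (j w) = -w) : Even (Module.finrank ℂ W) := by
  classical
  set d := Module.finrank ℂ W with hd
  let b := Module.finBasis ℂ W
  let M : Matrix (Fin d) (Fin d) ℂ := Matrix.of fun l k => b.repr (j (b k)) l
  have hM : M * M.map conj = -1 := by
    ext m k
    rw [Matrix.mul_apply]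
    have h1 : j (b k) = ∑ l, M l k • b l := by
      have := b.sum_repr (j (b k))
      rw [← this]
      rfl
    have h2 : b.repr (j (j (b k))) m = ∑ l, M m l * conj (M l k) := by
      rw [h1, map_sum, map_sum, Finsupp.finsetSum_apply]
      apply Finset.sum_congr rfl
      intro l _
      rw [LinearMap.map_smulₛₗ, map_smul, Finsupp.smul_apply, smul_eq_mul, mul_comm]
      rfl
    rw [hj, map_neg, Finsupp.neg_apply, Module.Basis.repr_self] at h2
    rw [Matrix.neg_apply]
    simp only [Matrix.map_apply]
    rw [← h2, Matrix.one_apply, Finsupp.single_apply]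
    congr 1
    by_cases h : m = k
    · simp [h]
    · simp [h, Ne.symm h]
  have hdet := congrArg Matrix.det hM
  rw [Matrix.det_mul, Matrix.det_neg, Matrix.det_one, mul_one, Fintype.card_fin] at hdet
  have h3 : (M.map conj).det = conj M.det := by
    have := RingHom.map_det (starRingEnd ℂ) M
    exact this.symm
  rw [h3, Complex.mul_conj] at hdet
  by_contra hodd
  rw [Nat.not_even_iff_odd] at hodd
  rw [hodd.neg_one_pow] at hdet
  have h4 : (Complex.normSq M.det : ℝ) = -1 := by exact_mod_cast hdet
  have h5 := Complex.normSq_nonneg M.det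
  linarith

variable {V : Type*} [AddCommGroup V] [Module ℂ V]

theorem even_negSq (A : VOA V) (s : V ≃ₛₗ[starRingEnd ℂ] V) (hs : A.IsAntiAut s) (n : ℤ) :
    Even (Module.finrank ℂ ↥(negSq s ⊓ A.wt n)) := by
  have hfin : FiniteDimensional ℂ (A.wt n) := A.finite n
  have hfin2 : FiniteDimensional ℂ ↥(negSq s ⊓ A.wt n) :=
    Submodule.finiteDimensional_of_le inf_le_right
  have hst : ∀ v ∈ negSq s ⊓ A.wt n, s v ∈ negSq s ⊓ A.wt n := by
    rintro v ⟨h1, h2⟩
    refine ⟨?_, ?_⟩
    · show s (s (s v)) = -(s v)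
      have h3 : s (s v) = -v := h1
      rw [h3, map_neg]
    · have h3 : A.mode 1 A.omega v = (n : ℂ) • v := (mem_wt A n v).1 h2
      show s v ∈ A.wt n
      rw [mem_wt]
      have h4 := hs.2.2 1 A.omega v
      rw [h3, hs.2.1, LinearEquiv.map_smulₛₗ, map_intCast] at h4
      exact h4.symm
  let j : ↥(negSq s ⊓ A.wt n) →ₛₗ[starRingEnd ℂ] ↥(negSq s ⊓ A.wt n) :=
    { toFun := fun v => ⟨s v, hst v v.2⟩
      map_add' := by
        intro x y
        apply Subtype.ext
        show s ((x : V) + y) = s x + s y
        rw [map_add]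
      map_smul' := by
        intro c x
        apply Subtype.ext
        show s (c • (x : V)) = (starRingEnd ℂ) c • s x
        rw [LinearEquiv.map_smulₛₗ] }
  apply even_of_quaternionic j
  intro w
  apply Subtype.ext
  show s (s (w : V)) = -(w : V)
  exact w.2.1

/-- the fixed points of `s²` have the real form given by the fixed points of `s` -/
theorem realFormOn_fixedSq (A : VOA V) (s : V ≃ₛₗ[starRingEnd ℂ] V) (hs : A.IsAntiAut s) :
    A.HasRealFormOn (fixedSq s) := by
  obtain ⟨hvac, hω, hmode⟩ := hs
  let U : Submodule ℝ V :=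
    { carrier := {v | s v = v}
      add_mem' := by
        intro a b ha hb
        show s (a + b) = a + b
        rw [map_add, ha, hb]
      zero_mem' := map_zero s
      smul_mem' := by
        intro r x hx
        show s (r • x) = r • x
        have h1 : r • x = (r : ℂ) • x := (Complex.coe_smul r x).symm
        rw [h1, LinearEquiv.map_smulₛₗ, Complex.conj_ofReal, hx] }
  have hU : ∀ v, v ∈ U ↔ s v = v := fun v => Iff.rfl
  have h2 : (2 : ℂ) ≠ 0 := two_ne_zero
  refine ⟨U, hvac, hω, ?_, ?_, ?_⟩
  · intro n u v hu hv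
    rw [hU] at hu hv ⊢
    rw [hmode, hu, hv]
  · intro v
    constructor
    · intro hv
      have hinv : s (s v) = v := hv
      refine ⟨(2⁻¹ : ℂ) • (v + s v), ?_, (-(Complex.I) / 2) • (v - s v), ?_, ?_⟩
      · rw [hU, LinearEquiv.map_smulₛₗ, map_add, hinv, map_inv₀, map_ofNat, add_comm]
      · rw [hU, LinearEquiv.map_smulₛₗ, map_sub, hinv, map_div₀, map_neg, Complex.conj_I,
          map_ofNat, neg_neg, neg_div, neg_smul, ← smul_neg, neg_sub]
      · rw [smul_smul]
        have h3 : Complex.I * (-(Complex.I) / 2) = 2⁻¹ := by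
          rw [← mul_div_assoc, mul_neg, Complex.I_mul_I, neg_neg, one_div]
        rw [h3, ← smul_add, add_add_sub_cancel, ← two_smul ℂ v, smul_smul, inv_mul_cancel₀ h2,
          one_smul]
    · rintro ⟨x, hx, y, hy, rfl⟩
      rw [hU] at hx hy
      show s (s (x + Complex.I • y)) = x + Complex.I • y
      rw [map_add, map_add, LinearEquiv.map_smulₛₗ, LinearEquiv.map_smulₛₗ, hx, hx, hy, hy,
        Complex.conj_conj]
  · intro x hx y hy hxy
    rw [hU] at hx hy
    have h4 : s x = -x := by
      rw [hxy, LinearEquiv.map_smulₛₗ, Complex.conj_I, hy, neg_smul]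
    rw [hx] at h4
    have h5 : (2 : ℂ) • x = 0 := by
      rw [two_smul]
      nth_rewrite 1 [h4]
      exact neg_add_cancel x
    rcases smul_eq_zero.1 h5 with h | h
    · exact absurd h h2
    · exact h

end Pool.Agent.Helper62.VR
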