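import Pool.Agent.Helper62.VR.Modify

open scoped ComplexConjugate

namespace Pool.Agent.Helper62.VR

variable {V : Type*} [AddCommGroup V] [Module ℂ V]

/-- an antilinear involution gives a real form -/
theorem realForm_of_involution (A : VOA V) (t : V →ₛₗ[starRingEnd ℂ] V)
    (hvac : t A.vac = A.vac) (hω : t A.omega = A.omega)
    (ht : ∀ (n : ℤ) (u v : V), t (A.mode n u v) = A.mode n (t u) (t v))
    (hinv : ∀ v, t (t v) = v) (Γ : Set (V ≃ₗ[ℂ] V))
    (hΓ : ∀ g ∈ Γ, ∀ v, g (t v) = t (g v)) : A.HasStableRealForm Γ := by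
  let U : Submodule ℝ V :=
    { carrier := {v | t v = v}
      add_mem' := by
        intro a b ha hb
        show t (a + b) = a + b
        rw [map_add, ha, hb]
      zero_mem' := map_zero t
      smul_mem' := by
        intro r x hx
        show t (r • x) = r • x
        have h1 : r • x = (r : ℂ) • x := (Complex.coe_smul r x).symm
        rw [h1, LinearMap.map_smulₛₗ, Complex.conj_ofReal, hx] }
  have hU : ∀ v, v ∈ U ↔ t v = v := fun v => Iff.rfl
  have h2 : (2 : ℂ) ≠ 0 := two_ne_zero
  refine ⟨U, hvac, hω, ?_, ?_, ?_, ?_⟩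
  · intro n u v hu hv
    rw [hU] at hu hv ⊢
    rw [ht, hu, hv]
  · intro v
    refine ⟨(2⁻¹ : ℂ) • (v + t v), ?_, (-(Complex.I) / 2) • (v - t v), ?_, ?_⟩
    · rw [hU, LinearMap.map_smulₛₗ, map_add, hinv, map_inv₀, map_ofNat, add_comm]
    · rw [hU, LinearMap.map_smulₛₗ, map_sub, hinv, map_div₀, map_neg, Complex.conj_I, map_ofNat,
        neg_neg, neg_div, neg_smul, ← smul_neg, neg_sub]
    · rw [smul_smul]
      have h3 : Complex.I * (-(Complex.I) / 2) = 2⁻¹ := by
        rw [← mul_div_assoc, mul_neg, Complex.I_mul_I, neg_neg, one_div]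
      rw [h3, ← smul_add, add_add_sub_cancel, ← two_smul ℂ v, smul_smul, inv_mul_cancel₀ h2,
        one_smul]
  · intro x hx y hy hxy
    rw [hU] at hx hy
    have h4 : t x = -x := by
      rw [hxy, LinearMap.map_smulₛₗ, Complex.conj_I, hy, neg_smul]
    rw [hx] at h4
    have h5 : (2 : ℂ) • x = 0 := by
      rw [two_smul]
      nth_rewrite 1 [h4]
      exact neg_add_cancel x
    rcases smul_eq_zero.1 h5 with h | h
    · exact absurd h h2
    · exact h
  · intro g hg u hu
    rw [hU] at hu ⊢
    rw [← hΓ g hg, hu]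

/-- a real form gives an antilinear involution -/
theorem involution_of_realForm (A : VOA V) (Γ : Set (V ≃ₗ[ℂ] V))
    (hA : A.HasStableRealForm Γ) : ∃ t : V →ₛₗ[starRingEnd ℂ] V, t A.vac = A.vac ∧ t A.omega = A.omega ∧
      (∀ (n : ℤ) (u v : V), t (A.mode n u v) = A.mode n (t u) (t v)) ∧
      (∀ v, t (t v) = v) ∧ (∀ g ∈ Γ, ∀ v, g (t v) = t (g v)) := by
  obtain ⟨U, hvac, hω, hmode, hex, huniq, hstab⟩ := hA
  choose X hX Y hY hXY using hex
  have uniq : ∀ x ∈ U, ∀ y ∈ U, ∀ v, v = x + Complex.I • y → X v = x ∧ Y v = y := by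
    intro x hx y hy v hv
    have h1 : X v - x = Complex.I • (y - Y v) := by
      rw [smul_sub]
      have h2 := hXY v
      rw [hv] at h2
      rw [hv]
      rw [sub_eq_sub_iff_add_eq_add]
      rw [← h2]
      abel
    have h3 := huniq _ (U.sub_mem (hX v) hx) _ (U.sub_mem hy (hY v)) h1
    have h4 : y - Y v = 0 := by
      rw [h3] at h1
      rcases smul_eq_zero.1 h1.symm with h | h
      · exact absurd h Complex.I_ne_zero
      · exact h
    exact ⟨sub_eq_zero.1 h3, (sub_eq_zero.1 h4).symm⟩
  let t : V →ₛₗ[starRingEnd ℂ] V :=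
    { toFun := fun v => X v - Complex.I • Y v
      map_add' := by
        intro v w
        obtain ⟨h1, h2⟩ := uniq (X v + X w) (U.add_mem (hX v) (hX w)) (Y v + Y w)
          (U.add_mem (hY v) (hY w)) (v + w) (by
            conv_lhs => rw [hXY v, hXY w]
            rw [smul_add]; abel)
        rw [h1, h2, smul_add]; abel
      map_smul' := by
        intro c v
        have hr : ∀ (r : ℝ) (x : V), (r : ℂ) • x = r • x := fun r x => Complex.coe_smul r x
        obtain ⟨h1, h2⟩ := uniq (c.re • X v - c.im • Y v)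
          (U.sub_mem (U.smul_mem _ (hX v)) (U.smul_mem _ (hY v)))
          (c.im • X v + c.re • Y v)
          (U.add_mem (U.smul_mem _ (hX v)) (U.smul_mem _ (hY v))) (c • v) (by
            conv_lhs => rw [hXY v, ← Complex.re_add_im c]
            rw [← hr, ← hr, ← hr, ← hr]
            simp only [smul_add, add_smul, smul_smul]
            have h3 : ((c.re : ℂ) + (c.im : ℂ) * Complex.I) * Complex.I =
                Complex.I * (c.re : ℂ) - (c.im : ℂ) := by
              rw [add_mul, mul_assoc, Complex.I_mul_I]; ring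
            have h4 : (c.im : ℂ) * Complex.I = Complex.I * (c.im : ℂ) := mul_comm _ _
            rw [h3, h4, sub_smul]
            abel)
        show X (c • v) - Complex.I • Y (c • v) = (starRingEnd ℂ) c • (X v - Complex.I • Y v)
        rw [h1, h2]
        have h6 : (starRingEnd ℂ) c = (c.re : ℂ) - (c.im : ℂ) * Complex.I := by
          apply Complex.ext <;> simp
        rw [h6, ← hr, ← hr, ← hr, ← hr]
        simp only [smul_add, sub_smul, smul_sub, smul_smul]
        have h3 : ((c.re : ℂ) - (c.im : ℂ) * Complex.I) * Complex.I =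
            Complex.I * (c.re : ℂ) + (c.im : ℂ) := by
          rw [sub_mul, mul_assoc, Complex.I_mul_I]; ring
        have h4 : (c.im : ℂ) * Complex.I = Complex.I * (c.im : ℂ) := mul_comm _ _
        rw [h3, h4, add_smul]
        abel }
  have ht : ∀ v, t v = X v - Complex.I • Y v := fun v => rfl
  have htU : ∀ v ∈ U, t v = v := by
    intro v hv
    obtain ⟨h1, h2⟩ := uniq v hv 0 U.zero_mem v (by simp)
    rw [ht, h1, h2]; simp
  refine ⟨t, htU _ hvac, htU _ hω, ?_, ?_, ?_⟩
  · intro n u v
    conv_lhs => rw [hXY u, hXY v]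
    simp only [map_add, LinearMap.add_apply, map_smul, LinearMap.smul_apply,
      LinearMap.map_smulₛₗ]
    rw [htU _ (hmode n _ _ (hX u) (hX v)), htU _ (hmode n _ _ (hY u) (hX v)),
      htU _ (hmode n _ _ (hX u) (hY v)), htU _ (hmode n _ _ (hY u) (hY v)), ht, ht]
    simp only [map_sub, LinearMap.sub_apply, map_smul, LinearMap.smul_apply, Complex.conj_I,
      smul_sub, smul_smul, neg_smul, smul_neg, smul_add, neg_mul, neg_neg]
    abel
  · intro v
    rw [ht v, map_sub, LinearMap.map_smulₛₗ, htU _ (hX v), htU _ (hY v), Complex.conj_I,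
      neg_smul, sub_neg_eq_add]
    exact (hXY v).symm
  · intro g hg v
    obtain ⟨h1, h2⟩ := uniq (g (X v)) (hstab g hg _ (hX v)) (g (Y v)) (hstab g hg _ (hY v))
      (g v) (by
        conv_lhs => rw [hXY v]
        rw [map_add, map_smul])
    rw [ht v, ht (g v), h1, h2, map_sub, map_smul]

end Pool.Agent.Helper62.VR
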