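import Pool.Agent.Helper62.VR.C2gen

open scoped ComplexConjugate

namespace Pool.Agent.Helper62.VR

variable {V : Type*} [AddCommGroup V] [Module ℂ V]

/-- an operator preserving a finite-dimensional space has finitely many eigenvalues there, and
the space is contained in the sum of the corresponding generalized eigenspaces -/
theorem finite_phases (g : Module.End ℂ V) (W : Submodule ℂ V) [FiniteDimensional ℂ W]
    (hW : ∀ x ∈ W, g x ∈ W) :
    ∃ E : Finset ℂ, W ≤ ⨆ a ∈ E, g.maxGenEigenspace a := by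
  classical
  have hfin := WellFoundedGT.finite_ne_bot_of_iSupIndep
    (Module.End.independent_maxGenEigenspace (LinearMap.restrict g hW))
  refine ⟨hfin.toFinset, ?_⟩
  have h := Module.End.iSup_maxGenEigenspace_eq_top (LinearMap.restrict g hW)
  intro x hx
  have hx2 : (⟨x, hx⟩ : W) ∈
      ⨆ μ, Module.End.maxGenEigenspace (LinearMap.restrict g hW) μ := by rw [h]; trivial
  have hx3 := Submodule.mem_map_of_mem (f := W.subtype) hx2
  rw [Submodule.map_iSup] at hx3
  have hle : ∀ μ : ℂ, Submodule.map W.subtype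
      (Module.End.maxGenEigenspace (LinearMap.restrict g hW) μ) ≤
        ⨆ a ∈ hfin.toFinset, g.maxGenEigenspace a := by
    intro μ
    by_cases hμ : Module.End.maxGenEigenspace (LinearMap.restrict g hW) μ = ⊥
    · rw [hμ, Submodule.map_bot]; exact bot_le
    · have h1 : μ ∈ hfin.toFinset := by
        rw [Set.Finite.mem_toFinset]; exact hμ
      refine le_trans ?_ (le_iSup₂ (f := fun (a : ℂ) (_ : a ∈ hfin.toFinset) =>
        g.maxGenEigenspace a) μ h1)
      rw [Module.End.maxGenEigenspace, Module.End.genEigenspace_restrict]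
      exact Submodule.map_comap_le _ _
  exact (iSup_le hle) hx3

/-- a `C₂`-cofinite vertex operator algebra with non-negative grading and an antilinear
automorphism has an antilinear automorphism whose order is a power of two -/
theorem twoPower (A : VOA V) (hpos : A.NonnegGraded) (hC : A.C₂Cofinite)
    (s : V ≃ₛₗ[starRingEnd ℂ] V) (hs : A.IsAntiAut s) :
    ∃ t : V →ₛₗ[starRingEnd ℂ] V, ∃ m : ℕ, t A.vac = A.vac ∧ t A.omega = A.omega ∧
      (∀ (n : ℤ) (u v : V), t (A.mode n u v) = A.mode n (t u) (t v)) ∧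
      (∀ v, ((sq t) ^ (2 ^ m)) v = v) ∧
      (∀ b : V →ₗ[ℂ] V, (∀ v, b (s v) = s (b v)) → ∀ v, b (t v) = t (b v)) := by
  classical
  obtain ⟨hvac, hω, hmode⟩ := hs
  set f : V →ₛₗ[starRingEnd ℂ] V := s.toLinearMap with hf
  have hfs : ∀ v, f v = s v := fun v => rfl
  have hinj : Function.Injective f := s.injective
  have hg := sq_mode A f hmode
  have hgω : sq f A.omega = A.omega := by rw [sq_apply, hfs, hfs, hω, hω]
  have hginj : Function.Injective (sq f) := fun x y h => hinj (hinj h)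
  obtain ⟨N, hN⟩ := c2_generation A hpos hC
  -- finitely many eigenvalues in low degrees
  have hE : ∀ n : ℤ, ∃ E : Finset ℂ, A.wt n ≤ ⨆ a ∈ E, (sq f).maxGenEigenspace a := by
    intro n
    have : FiniteDimensional ℂ (A.wt n) := A.finite n
    exact finite_phases (sq f) (A.wt n) (fun x hx => map_wt A (sq f) hgω hg hx)
  choose E hE using hE
  set P : Finset Circle := (Finset.range (N + 1)).biUnion
    (fun n : ℕ => (E (n : ℤ)).image phase) with hP
  set Γ : Subgroup Circle := Subgroup.closure (P : Set Circle) with hΓ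
  have hfg : Γ.FG := ⟨P, rfl⟩
  obtain ⟨m, hm⟩ := exists_bound Γ hfg
  set S : Submodule ℂ V := ⨆ a : {a : ℂ // a ≠ 0 ∧ phase a ∈ Γ},
    (sq f).maxGenEigenspace (a : ℂ) with hS
  have hSle : ∀ a : ℂ, a ≠ 0 → phase a ∈ Γ → (sq f).maxGenEigenspace a ≤ S := fun a ha hp =>
    le_iSup (fun a : {a : ℂ // a ≠ 0 ∧ phase a ∈ Γ} =>
      (sq f).maxGenEigenspace (a : ℂ)) ⟨a, ha, hp⟩
  have hStop : S = ⊤ := by
    apply hN
    · intro n hn
      by_cases hn0 : n < 0
      · rw [hpos n hn0]; exact bot_le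
      · obtain ⟨j, rfl⟩ := Int.eq_ofNat_of_zero_le (not_lt.1 hn0)
        refine le_trans (hE j) (iSup₂_le ?_)
        intro a ha
        by_cases ha0 : a = 0
        · intro v hv
          rw [ha0] at hv
          rw [gen_zero _ hginj hv]
          exact S.zero_mem
        · apply hSle a ha0
          apply Subgroup.subset_closure
          rw [Finset.mem_coe, hP, Finset.mem_biUnion]
          exact ⟨j, Finset.mem_range.2 (by omega), Finset.mem_image.2 ⟨a, ha, rfl⟩⟩
    · intro n u v hu hv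
      refine Submodule.iSup_induction _ (motive := fun u => A.mode n u v ∈ S) hu ?_ ?_ ?_
      · rintro ⟨a, ha, hpa⟩ u hu
        refine Submodule.iSup_induction _ (motive := fun v => A.mode n u v ∈ S) hv ?_ ?_ ?_
        · rintro ⟨b, hb, hpb⟩ v hv
          refine hSle (a * b) (mul_ne_zero ha hb) ?_ (gen_mul A _ hg hu hv n)
          rw [phase_mul ha hb]
          exact Γ.mul_mem hpa hpb
        · simp
        · intro x y hx hy
          rw [map_add]
          exact S.add_mem hx hy
      · simp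
      · intro x y hx hy
        rw [map_add, LinearMap.add_apply]
        exact S.add_mem hx hy
  obtain ⟨t, h1, h2, h3, h4, h5⟩ := modify A f hinj hvac hω hmode Γ m hm (by
    intro a v hv hv0
    by_contra hcon
    have hind := (sq f).independent_maxGenEigenspace a
    have hSb : S ≤ ⨆ b : ℂ, ⨆ _ : b ≠ a, (sq f).maxGenEigenspace b := by
      rw [hS]
      apply iSup_le
      rintro ⟨b, hb, hpb⟩
      have hba : b ≠ a := by
        rintro rfl
        exact hcon hpb
      exact le_iSup₂ (f := fun (b : ℂ) (_ : b ≠ a) => (sq f).maxGenEigenspace b) b hba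
    have hvS : v ∈ ⨆ b : ℂ, ⨆ _ : b ≠ a, (sq f).maxGenEigenspace b := by
      apply hSb
      rw [hStop]; trivial
    have := hind.le_bot ⟨hv, hvS⟩
    exact hv0 (by simpa using this))
  exact ⟨t, m, h1, h2, h3, h4, fun b hb => h5 b hb⟩

theorem sq_pow_mode (A : VOA V) (t : V →ₛₗ[starRingEnd ℂ] V)
    (h3 : ∀ (n : ℤ) (u v : V), t (A.mode n u v) = A.mode n (t u) (t v)) (k : ℕ) (n : ℤ)
    (u v : V) : ((sq t) ^ k) (A.mode n u v) = A.mode n (((sq t) ^ k) u) (((sq t) ^ k) v) := by
  induction k with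
  | zero => simp
  | succ k ih =>
    rw [pow_succ', Module.End.mul_apply, ih, sq_mode A t h3, Module.End.mul_apply,
      Module.End.mul_apply]

theorem sq_pow_fix (t : V →ₛₗ[starRingEnd ℂ] V) {x : V} (hx : t x = x) (k : ℕ) :
    ((sq t) ^ k) x = x := by
  induction k with
  | zero => simp
  | succ k ih => rw [pow_succ', Module.End.mul_apply, ih, sq_apply, hx, hx]

/-- without involutions, an antilinear map with `t²` of 2-power order is an involution -/
theorem descend (A : VOA V) (t : V →ₛₗ[starRingEnd ℂ] V) (h1 : t A.vac = A.vac)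
    (h2 : t A.omega = A.omega)
    (h3 : ∀ (n : ℤ) (u v : V), t (A.mode n u v) = A.mode n (t u) (t v))
    (G : Set (V ≃ₗ[ℂ] V)) (hG : ∀ b ∈ G, ∀ v, b (t v) = t (b v))
    (hno : ∀ g : V ≃ₗ[ℂ] V, A.IsAut g → (∀ b ∈ G, ∀ v, b (g v) = g (b v)) →
      (∀ v, g (g v) = v) → ∀ v, g v = v) :
    ∀ m : ℕ, (∀ v, ((sq t) ^ (2 ^ m)) v = v) → ∀ v, t (t v) = v := by
  intro m
  induction m with
  | zero =>
    intro h v
    have := h v
    rwa [pow_zero, pow_one, sq_apply] at this
  | succ m ih =>
    intro h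
    apply ih
    have hinv : ∀ v, ((sq t) ^ (2 ^ m)) (((sq t) ^ (2 ^ m)) v) = v := by
      intro v
      rw [← Module.End.mul_apply, ← pow_add, ← two_mul, ← pow_succ']
      exact h v
    let g : V ≃ₗ[ℂ] V := LinearEquiv.ofLinearMap ((sq t) ^ (2 ^ m)) ((sq t) ^ (2 ^ m))
      (LinearMap.ext hinv) (LinearMap.ext hinv)
    have hgv : ∀ v, g v = ((sq t) ^ (2 ^ m)) v := fun v => rfl
    intro v
    rw [← hgv]
    apply hno g
    · refine ⟨?_, ?_, ?_⟩
      · rw [hgv, sq_pow_fix t h1]
      · rw [hgv, sq_pow_fix t h2]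
      · intro n u v
        rw [hgv, hgv, hgv, sq_pow_mode A t h3]
    · intro b hb v
      rw [hgv, hgv]
      have hk : ∀ k : ℕ, ∀ v, b (((sq t) ^ k) v) = ((sq t) ^ k) (b v) := by
        intro k
        induction k with
        | zero => intro v; simp
        | succ k ih =>
          intro v
          rw [pow_succ', Module.End.mul_apply, Module.End.mul_apply, ← ih, sq_apply, sq_apply,
            hG b hb, hG b hb]
      exact hk _ v
    · intro v
      rw [hgv, hgv, hinv]

theorem sq_iterate (t : V →ₛₗ[starRingEnd ℂ] V) (k : ℕ) (v : V) :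
    ((sq t) ^ k) v = t^[2 * k] v := by
  induction k with
  | zero => simp
  | succ k ih =>
    rw [pow_succ', Module.End.mul_apply, ih, sq_apply, mul_add, mul_one,
      Function.iterate_succ_apply', Function.iterate_succ_apply']

theorem main_twoPower (A : VOA V) (hpos : A.NonnegGraded) (hC : A.C₂Cofinite)
    (G : Set (V ≃ₗ[ℂ] V))
    (hbar : ∃ s : V ≃ₛₗ[starRingEnd ℂ] V, A.IsAntiAut s ∧ ∀ g ∈ G, ∀ v, g (s v) = s (g v)) :
    (∃ s : V ≃ₛₗ[starRingEnd ℂ] V, A.IsAntiAut s ∧ (∀ g ∈ G, ∀ v, g (s v) = s (g v)) ∧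
      ∃ m : ℕ, ∀ v, (⇑s)^[2 ^ m] v = v) ∧
    ((∀ g : V ≃ₗ[ℂ] V, A.IsAut g → (∀ b ∈ G, ∀ v, b (g v) = g (b v)) →
      (∀ v, g (g v) = v) → ∀ v, g v = v) → A.HasStableRealForm G) := by
  obtain ⟨s, hs, hsG⟩ := hbar
  obtain ⟨t, m, h1, h2, h3, h4, h5⟩ := twoPower A hpos hC s hs
  have hG : ∀ g ∈ G, ∀ v, g (t v) = t (g v) := fun g hg v =>
    h5 g.toLinearMap (fun v => hsG g hg v) v
  constructor
  · obtain ⟨e, he⟩ := exists_equiv t (2 ^ m) (by positivity) h4
    refine ⟨e, ⟨?_, ?_, ?_⟩, ?_, m + 1, ?_⟩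
    · rw [he, h1]
    · rw [he, h2]
    · intro n u v
      rw [he, he, he, h3]
    · intro g hg v
      rw [he, he, hG g hg]
    · intro v
      have h5 : (⇑e : V → V) = ⇑t := funext he
      rw [h5, pow_succ', ← sq_iterate, h4]
  · intro hno
    exact realForm_of_involution A t h1 h2 h3 (descend A t h1 h2 h3 G hG hno m h4) G hG

end Pool.Agent.Helper62.VR
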