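import Pool.Agent.Helper62.VR.Gen

open scoped ComplexConjugate

namespace Pool.Agent.Helper62.VR

variable {V : Type*} [AddCommGroup V] [Module ℂ V]

/-- the binomial coefficient `s(s-1)...(s-k+1)/k!` -/
noncomputable def bin (s : ℂ) (k : ℕ) : ℂ := (descPochhammer ℂ k).eval s / (k.factorial : ℂ)

theorem bin_nat (m k : ℕ) : bin (m : ℂ) k = (m.choose k : ℂ) := by
  unfold bin
  rw [descPochhammer_eval_eq_descFactorial, Nat.descFactorial_eq_factorial_mul_choose]
  push_cast
  have : (k.factorial : ℂ) ≠ 0 := by exact_mod_cast k.factorial_ne_zero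
  field_simp

theorem conj_bin (s : ℂ) (k : ℕ) : conj (bin s k) = bin (conj s) k := by
  unfold bin
  rw [map_div₀, map_natCast]
  congr 1
  have h := Polynomial.eval_map_apply (starRingEnd ℂ) (p := descPochhammer ℂ k) s
  rw [descPochhammer_map] at h
  exact h.symm

/-- scalar-polynomial dependence on a parameter -/
def PolyFun (F : ℂ → V) : Prop :=
  ∀ f : V →ₗ[ℂ] ℂ, ∃ P : Polynomial ℂ, ∀ s, f (F s) = P.eval s

theorem polyFun_ext {F F' : ℂ → V} (hF : PolyFun F) (hF' : PolyFun F')
    (h : ∀ m : ℕ, F m = F' m) (s : ℂ) : F s = F' s := by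
  rw [← sub_eq_zero, ← Module.forall_dual_apply_eq_zero_iff ℂ]
  intro f
  obtain ⟨P, hP⟩ := hF f
  obtain ⟨Q, hQ⟩ := hF' f
  have hPQ : P = Q := by
    apply Polynomial.eq_of_infinite_eval_eq
    have hinf : (Set.range (fun m : ℕ => (m : ℂ))).Infinite :=
      Set.infinite_range_of_injective Nat.cast_injective
    apply hinf.mono
    rintro _ ⟨m, rfl⟩
    show P.eval (m : ℂ) = Q.eval (m : ℂ)
    rw [← hP, ← hQ, h m]
  rw [map_sub, hP, hQ, hPQ, sub_self]

theorem polyFun_sum {ι : Type*} (S : Finset ι) (c : ι → ℂ → ℂ) (x : ι → V)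
    (hc : ∀ i ∈ S, ∃ P : Polynomial ℂ, ∀ s, c i s = P.eval s) :
    PolyFun (fun s => ∑ i ∈ S, c i s • x i) := by
  classical
  intro f
  choose! P hP using hc
  refine ⟨∑ i ∈ S, P i * Polynomial.C (f (x i)), fun s => ?_⟩
  rw [map_sum, Polynomial.eval_finsetSum]
  apply Finset.sum_congr rfl
  intro i hi
  rw [map_smul, Polynomial.eval_mul, Polynomial.eval_C, hP i hi s, smul_eq_mul]

theorem bin_poly (k : ℕ) : ∃ P : Polynomial ℂ, ∀ s, bin s k = P.eval s := by
  refine ⟨descPochhammer ℂ k * Polynomial.C ((k.factorial : ℂ)⁻¹), fun s => ?_⟩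
  rw [Polynomial.eval_mul, Polynomial.eval_C]
  rfl

/-- the binomial series of a locally nilpotent operator -/
theorem exists_series (N : Module.End ℂ V) (hN : ∀ v : V, ∃ k : ℕ, (N ^ k) v = 0) :
    ∃ W : ℂ → (V →ₗ[ℂ] V), ∀ (s : ℂ) (v : V) (K : ℕ), (N ^ K) v = 0 →
      W s v = ∑ k ∈ Finset.range K, bin s k • (N ^ k) v := by
  classical
  have hmono : ∀ (v : V) (K L : ℕ), K ≤ L → (N ^ K) v = 0 → (N ^ L) v = 0 := by
    intro v K L hKL h
    obtain ⟨d, rfl⟩ := Nat.exists_eq_add_of_le hKL
    rw [add_comm, pow_add, Module.End.mul_apply, h, map_zero]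
  have hindep : ∀ (s : ℂ) (v : V) (K L : ℕ), K ≤ L → (N ^ K) v = 0 →
      ∑ k ∈ Finset.range K, bin s k • (N ^ k) v = ∑ k ∈ Finset.range L, bin s k • (N ^ k) v := by
    intro s v K L hKL h
    apply Finset.sum_subset (Finset.range_mono hKL)
    intro k _ hk
    rw [Finset.mem_range, not_lt] at hk
    rw [hmono v K k hk h, smul_zero]
  have hindep2 : ∀ (s : ℂ) (v : V) (K L : ℕ), (N ^ K) v = 0 → (N ^ L) v = 0 →
      ∑ k ∈ Finset.range K, bin s k • (N ^ k) v = ∑ k ∈ Finset.range L, bin s k • (N ^ k) v := by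
    intro s v K L hK hL
    rw [hindep s v K (max K L) (le_max_left _ _) hK, hindep s v L (max K L) (le_max_right _ _) hL]
  let κ : V → ℕ := fun v => (hN v).choose
  have hκ : ∀ v, (N ^ κ v) v = 0 := fun v => (hN v).choose_spec
  refine ⟨fun s => { toFun := fun v => ∑ k ∈ Finset.range (κ v), bin s k • (N ^ k) v
                     map_add' := ?_, map_smul' := ?_ }, ?_⟩
  · intro x y
    set L := max (κ x) (max (κ y) (κ (x + y))) with hL
    rw [hindep s (x + y) (κ (x + y)) L (by omega) (hκ _), hindep s x (κ x) L (by omega) (hκ _),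
      hindep s y (κ y) L (by omega) (hκ _), ← Finset.sum_add_distrib]
    apply Finset.sum_congr rfl
    intro k _
    rw [map_add, smul_add]
  · intro c x
    set L := max (κ x) (κ (c • x)) with hL
    rw [hindep s (c • x) (κ (c • x)) L (by omega) (hκ _),
      hindep s x (κ x) L (by omega) (hκ _), RingHom.id_apply, Finset.smul_sum]
    apply Finset.sum_congr rfl
    intro k _
    rw [map_smul, smul_comm]
  · intro s v K hK
    exact hindep2 s v (κ v) K (hκ v) hK

/-- the formal properties of the binomial powers of a locally unipotent operator `1 + N` -/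
theorem exists_powers (A : VOA V) (N : Module.End ℂ V) (hN : ∀ v : V, ∃ k : ℕ, (N ^ k) v = 0)
    (hmul : ∀ (n : ℤ) (u v : V), (1 + N) (A.mode n u v) = A.mode n ((1 + N) u) ((1 + N) v)) :
    ∃ w : V →ₗ[ℂ] V, (∀ (n : ℤ) (u v : V), w (A.mode n u v) = A.mode n (w u) (w v)) ∧
      (∀ v, w (w ((1 + N) v)) = v) ∧
      (∀ (U : Submodule ℂ V), (∀ v ∈ U, N v ∈ U) → ∀ v ∈ U, w v ∈ U) ∧
      (∀ h : V →ₗ[ℂ] V, (∀ v, h (N v) = N (h v)) → ∀ v, h (w v) = w (h v)) ∧
      (∀ s : V →ₛₗ[starRingEnd ℂ] V, (∀ v, s (N v) = N (s v)) → ∀ v, s (w v) = w (s v)) ∧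
      (∀ v, N v = 0 → w v = v) := by
  obtain ⟨W, hW⟩ := exists_series N hN
  have hmono : ∀ (v : V) (K L : ℕ), K ≤ L → (N ^ K) v = 0 → (N ^ L) v = 0 := by
    intro v K L hKL h
    obtain ⟨d, rfl⟩ := Nat.exists_eq_add_of_le hKL
    rw [add_comm, pow_add, Module.End.mul_apply, h, map_zero]
  -- natural powers
  have hnat : ∀ (m : ℕ) (v : V), W (m : ℂ) v = ((1 + N) ^ m) v := by
    intro m v
    obtain ⟨K, hK⟩ := hN v
    set L := max K (m + 1) with hL
    rw [hW (m : ℂ) v L (hmono v K L (le_max_left _ _) hK)]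
    have h1 : (1 + N) ^ m = ∑ k ∈ Finset.range (m + 1), (m.choose k : ℂ) • N ^ k := by
      rw [add_comm, (Commute.one_right N).add_pow]
      apply Finset.sum_congr rfl
      intro k _
      rw [one_pow, mul_one, ← Nat.cast_comm, Algebra.smul_def]
      simp
    rw [h1, LinearMap.sum_apply]
    symm
    have h2 : ∀ k, ((m.choose k : ℂ) • N ^ k) v = bin (m : ℂ) k • (N ^ k) v := by
      intro k
      rw [bin_nat, LinearMap.smul_apply]
    simp_rw [h2]
    apply Finset.sum_subset (Finset.range_mono (le_max_right _ _))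
    intro k _ hk
    rw [Finset.mem_range, not_lt] at hk
    rw [bin_nat, Nat.choose_eq_zero_of_lt (by omega)]
    simp
  have hWpoly : ∀ v, PolyFun (fun s => W s v) := by
    intro v
    obtain ⟨K, hK⟩ := hN v
    have h1 : (fun s => W s v) = fun s => ∑ k ∈ Finset.range K, bin s k • (N ^ k) v := by
      funext s
      exact hW s v K hK
    rw [h1]
    exact polyFun_sum _ (fun k s => bin s k) _ (fun k _ => bin_poly k)
  have hpowmul : ∀ (m : ℕ) (n : ℤ) (u v : V), ((1 + N) ^ m) (A.mode n u v) =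
      A.mode n (((1 + N) ^ m) u) (((1 + N) ^ m) v) := by
    intro m
    induction m with
    | zero => intro n u v; simp
    | succ m ih =>
      intro n u v
      rw [pow_succ', Module.End.mul_apply, ih, hmul, Module.End.mul_apply, Module.End.mul_apply]
  have hWmul : ∀ (s : ℂ) (n : ℤ) (u v : V), W s (A.mode n u v) = A.mode n (W s u) (W s v) := by
    intro s n u v
    obtain ⟨K, hK⟩ := hN u
    obtain ⟨L, hL⟩ := hN v
    have h1 : PolyFun (fun s => A.mode n (W s u) (W s v)) := by
      have h2 : (fun s => A.mode n (W s u) (W s v)) = fun s =>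
          ∑ p ∈ Finset.range K ×ˢ Finset.range L,
            (bin s p.1 * bin s p.2) • A.mode n ((N ^ p.1) u) ((N ^ p.2) v) := by
        funext s
        rw [hW s u K hK, hW s v L hL, Finset.sum_product, map_sum (A.mode n),
          LinearMap.sum_apply]
        apply Finset.sum_congr rfl
        intro k _
        rw [map_smul, LinearMap.smul_apply, map_sum, Finset.smul_sum]
        apply Finset.sum_congr rfl
        intro l _
        rw [map_smul, smul_smul]
      rw [h2]
      apply polyFun_sum _ (fun (p : ℕ × ℕ) s => bin s p.1 * bin s p.2)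
      intro p _
      obtain ⟨P, hP⟩ := bin_poly p.1
      obtain ⟨Q, hQ⟩ := bin_poly p.2
      exact ⟨P * Q, fun s => by rw [Polynomial.eval_mul, hP, hQ]⟩
    refine polyFun_ext (hWpoly _) h1 ?_ s
    intro m
    show W (m : ℂ) (A.mode n u v) = A.mode n (W (m : ℂ) u) (W (m : ℂ) v)
    rw [hnat, hnat, hnat, hpowmul]
  have hNW : ∀ (s : ℂ) (v : V) (l : ℕ), (N ^ l) (W s v) = W s ((N ^ l) v) := by
    intro s v l
    obtain ⟨K, hK⟩ := hN v
    have hK2 : (N ^ K) ((N ^ l) v) = 0 := by
      rw [← Module.End.mul_apply, ← pow_add, add_comm, pow_add, Module.End.mul_apply, hK, map_zero]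
    rw [hW s v K hK, hW s _ K hK2, map_sum]
    apply Finset.sum_congr rfl
    intro k _
    rw [map_smul, ← Module.End.mul_apply, ← Module.End.mul_apply, ← pow_add, ← pow_add, add_comm]
  have hsq : ∀ (s : ℂ) (v : V), W s (W s v) = W (2 * s) v := by
    intro s v
    obtain ⟨K, hK⟩ := hN v
    have h1 : PolyFun (fun s => W s (W s v)) := by
      have h2 : (fun s => W s (W s v)) = fun s =>
          ∑ p ∈ Finset.range K ×ˢ Finset.range K,
            (bin s p.1 * bin s p.2) • ((N ^ (p.1 + p.2)) v) := by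
        funext s
        have hK2 : (N ^ K) (W s v) = 0 := by rw [hNW, hK, map_zero]
        rw [hW s (W s v) K hK2, Finset.sum_product]
        apply Finset.sum_congr rfl
        intro k _
        rw [hW s v K hK, map_sum, Finset.smul_sum]
        apply Finset.sum_congr rfl
        intro l _
        rw [map_smul, smul_smul, ← Module.End.mul_apply, ← pow_add]
      rw [h2]
      apply polyFun_sum _ (fun (p : ℕ × ℕ) s => bin s p.1 * bin s p.2)
      intro p _
      obtain ⟨P, hP⟩ := bin_poly p.1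
      obtain ⟨Q, hQ⟩ := bin_poly p.2
      exact ⟨P * Q, fun s => by rw [Polynomial.eval_mul, hP, hQ]⟩
    have h3 : PolyFun (fun s => W (2 * s) v) := by
      intro f
      obtain ⟨P, hP⟩ := hWpoly v f
      refine ⟨P.comp (Polynomial.C 2 * Polynomial.X), fun s => ?_⟩
      rw [Polynomial.eval_comp]
      simpa using hP (2 * s)
    refine polyFun_ext h1 h3 ?_ s
    intro m
    show W (m : ℂ) (W (m : ℂ) v) = W (2 * (m : ℂ)) v
    have h4 : (2 * (m : ℂ)) = ((2 * m : ℕ) : ℂ) := by push_cast; ring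
    rw [h4, hnat, hnat, hnat, ← Module.End.mul_apply, ← pow_add, two_mul]
  have hshift : ∀ (s : ℂ) (v : V), W s ((1 + N) v) = W (s + 1) v := by
    intro s v
    have h3 : PolyFun (fun s => W (s + 1) v) := by
      intro f
      obtain ⟨P, hP⟩ := hWpoly v f
      refine ⟨P.comp (Polynomial.X + Polynomial.C 1), fun s => ?_⟩
      rw [Polynomial.eval_comp]
      simpa using hP (s + 1)
    refine polyFun_ext (hWpoly _) h3 ?_ s
    intro m
    show W (m : ℂ) ((1 + N) v) = W ((m : ℂ) + 1) v
    have h4 : ((m : ℂ) + 1) = ((m + 1 : ℕ) : ℂ) := by push_cast; ring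
    rw [h4, hnat, hnat, pow_succ, Module.End.mul_apply]
  have hW0 : ∀ v, W 0 v = v := by
    intro v
    have := hnat 0 v
    simpa using this
  refine ⟨W (-1 / 2), hWmul _, ?_, ?_, ?_, ?_, ?_⟩
  · intro v
    rw [hsq, hshift]
    have : (2 * (-1 / 2 : ℂ) + 1) = 0 := by ring
    rw [this, hW0]
  · intro U hU v hv
    obtain ⟨K, hK⟩ := hN v
    rw [hW _ v K hK]
    apply Submodule.sum_mem
    intro k _
    apply Submodule.smul_mem
    have : ∀ k : ℕ, (N ^ k) v ∈ U := by
      intro k
      induction k with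
      | zero => simpa using hv
      | succ k ih =>
        rw [pow_succ', Module.End.mul_apply]
        exact hU _ ih
    exact this k
  · intro h hh v
    obtain ⟨K, hK⟩ := hN v
    have hp : ∀ k : ℕ, h ((N ^ k) v) = (N ^ k) (h v) := by
      intro k
      induction k with
      | zero => simp
      | succ k ih => rw [pow_succ', Module.End.mul_apply, hh, ih, Module.End.mul_apply]
    have hK2 : (N ^ K) (h v) = 0 := by rw [← hp, hK, map_zero]
    rw [hW _ v K hK, hW _ (h v) K hK2, map_sum]
    apply Finset.sum_congr rfl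
    intro k _
    rw [map_smul, hp]
  · intro h hh v
    obtain ⟨K, hK⟩ := hN v
    have hp : ∀ k : ℕ, h ((N ^ k) v) = (N ^ k) (h v) := by
      intro k
      induction k with
      | zero => simp
      | succ k ih => rw [pow_succ', Module.End.mul_apply, hh, ih, Module.End.mul_apply]
    have hK2 : (N ^ K) (h v) = 0 := by rw [← hp, hK, map_zero]
    rw [hW _ v K hK, hW _ (h v) K hK2, map_sum]
    apply Finset.sum_congr rfl
    intro k _
    rw [LinearMap.map_smulₛₗ, hp, conj_bin]
    have h2 : conj (-1 / 2 : ℂ) = -1 / 2 := by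
      rw [map_div₀, map_neg, map_one, map_ofNat]
    rw [h2]
  · intro v hv
    have h1 : (N ^ 1) v = 0 := by simpa using hv
    rw [hW _ v 1 h1]
    simp [bin]

end Pool.Agent.Helper62.VR
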